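import Mathlib
import Pool.Agent.Helper635.LLL
import Pool.Agent.H238R2.HY.Part

set_option autoImplicit false

/-!
# Random types with few conflicts (local lemma)
-/

namespace Pool.Agent.Helper311.Glue

open Finset Pool.Agent.Helper635.LLL Classical

section Prob

variable {T C : Type} [Fintype T] [Fintype C]

/-- averaging one coordinate -/
theorem sum_update (i : T) (f : (T → C) → ℝ) :
    ∑ ω : T → C, ∑ c : C, f (Function.update ω i c) = (Fintype.card C : ℝ) * ∑ ω : T → C, f ω := by
  have h : ∑ ω : T → C, ∑ c : C, f (Function.update ω i c) =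
      ∑ q : (T → C) × C, f (Function.update q.1 i q.2) := by
    rw [Fintype.sum_prod_type]
  have h2 : ∑ q : (T → C) × C, f (Function.update q.1 i q.2) = ∑ q : (T → C) × C, f q.1 := by
    refine Finset.sum_bij' (fun q _ => (Function.update q.1 i q.2, q.1 i))
      (fun q _ => (Function.update q.1 i q.2, q.1 i)) ?_ ?_ ?_ ?_ ?_
    · intro a _; exact Finset.mem_univ _
    · intro a _; exact Finset.mem_univ _
    · rintro ⟨ω, c⟩ _
      simp
    · rintro ⟨ω, c⟩ _
      simp
    · rintro ⟨ω, c⟩ _
      rfl
  rw [h, h2, Fintype.sum_prod_type]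
  simp only [Finset.sum_const, Finset.card_univ, nsmul_eq_mul]
  rw [← Finset.mul_sum]

/-- product bound: the factors belong to the coordinates in `I` and do not see each other -/
theorem prod_le (F : T → (T → C) → ℝ) (I0 : Finset T) :
    ∀ (n : ℕ) (I : Finset T), I.card = n → I ⊆ I0 → (∀ i ∈ I0, ∀ ω, 0 ≤ F i ω) →
    (∀ i ∈ I0, ∀ ω ω' : T → C, (∀ j, j = i ∨ j ∉ I0 → ω j = ω' j) → F i ω = F i ω') →
    (∀ i ∈ I0, ∀ ω : T → C, ∑ c : C, F i (Function.update ω i c) ≤ Fintype.card C) →
    0 < Fintype.card C →
    ∑ ω : T → C, ∏ i ∈ I, F i ω ≤ Fintype.card (T → C) := by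
  intro n
  induction n with
  | zero =>
    intro I hI _ _ _ _ _
    rw [Finset.card_eq_zero] at hI
    subst hI
    simp
  | succ n ih =>
    intro I hI hII h0 hdep havg hC
    obtain ⟨i, hi⟩ := Finset.card_pos.mp (show 0 < I.card by omega)
    have hcard : (I.erase i).card = n := by rw [Finset.card_erase_of_mem hi, hI]; rfl
    have ih' := ih (I.erase i) hcard ((Finset.erase_subset _ _).trans hII) h0 hdep havg hC
    refine le_trans ?_ ih'
    have hCr : (0 : ℝ) < Fintype.card C := by exact_mod_cast hC
    have e1 := sum_update i (fun ω => ∏ j ∈ I, F j ω)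
    have e2 : ∀ ω : T → C, ∑ c : C, ∏ j ∈ I, F j (Function.update ω i c) ≤
        (Fintype.card C : ℝ) * ∏ j ∈ I.erase i, F j ω := by
      intro ω
      have e3 : ∀ c : C, ∏ j ∈ I, F j (Function.update ω i c) =
          (∏ j ∈ I.erase i, F j ω) * F i (Function.update ω i c) := by
        intro c
        rw [← Finset.prod_erase_mul I _ hi]
        congr 1
        refine Finset.prod_congr rfl (fun j hj => ?_)
        apply hdep j (hII (Finset.mem_of_mem_erase hj))
        intro t ht
        have hji : j ≠ i := Finset.ne_of_mem_erase hj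
        have hti : t ≠ i := by
          rintro rfl
          rcases ht with h | h
          · exact hji h.symm
          · exact h (hII hi)
        rw [Function.update_of_ne hti]
      simp only [e3]
      rw [← Finset.mul_sum, mul_comm]
      refine mul_le_mul_of_nonneg_right (havg i (hII hi) ω) ?_
      exact Finset.prod_nonneg (fun j hj => h0 j (hII (Finset.mem_of_mem_erase hj)) ω)
    have e4 := Finset.sum_le_sum (fun ω (_ : ω ∈ (Finset.univ : Finset (T → C))) => e2 ω)
    rw [e1, ← Finset.mul_sum] at e4
    exact le_of_mul_le_mul_left e4 hCr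

end Prob

/-- few conflicts: `I` is a set of vertices, each `u ∈ I` has a list `S u` of at most `s` vertices
outside `I`; the number of `u ∈ I` with the same type as some vertex in `S u` is rarely large -/
theorem conflict {V : Type} [Fintype V] (K s : ℕ) (hK : 1 ≤ K) (I : Finset V) (S : V → Finset V)
    (hs : ∀ u, (S u).card ≤ s) (hI : ∀ u ∈ I, ∀ w ∈ S u, w ∉ I) (m : ℕ) :
    (cnt (fun ω : V → Fin K => m ≤ (I.filter (fun u => ∃ w ∈ S u, ω w = ω u)).card) : ℝ) ≤
      Real.exp (2 * s * I.card / K - m) * Fintype.card (V → Fin K) := by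
  have hKpos : (0 : ℝ) < K := by exact_mod_cast hK
  have : Nonempty (Fin K) := ⟨⟨0, hK⟩⟩
  set e : ℝ := Real.exp 1 with he
  have he1 : 1 < e := by rw [he]; exact Real.one_lt_exp_iff.2 one_pos
  have he3 : e < 3 := by rw [he]; exact Real.exp_one_lt_three
  set q : ℝ := 1 + (e - 1) * s / K with hq
  have hqpos : 0 < q := by
    rw [hq]
    have : 0 ≤ (e - 1) * s / K := div_nonneg (mul_nonneg (by linarith) (by positivity)) hKpos.le
    linarith
  -- the factors
  set F : V → (V → Fin K) → ℝ := fun u ω => (if ∃ w ∈ S u, ω w = ω u then e else 1) / q with hF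
  have hF0 : ∀ i ∈ I, ∀ ω, 0 ≤ F i ω := by
    intro i _ ω
    rw [hF]
    simp only
    refine div_nonneg ?_ hqpos.le
    split_ifs
    · linarith
    · exact zero_le_one
  have hdep : ∀ i ∈ I, ∀ ω ω' : V → Fin K, (∀ j, j = i ∨ j ∉ I → ω j = ω' j) →
      F i ω = F i ω' := by
    intro i hi ω ω' hag
    rw [hF]
    simp only
    congr 1
    have : (∃ w ∈ S i, ω w = ω i) ↔ (∃ w ∈ S i, ω' w = ω' i) := by
      constructor
      · rintro ⟨w, hw, hwi⟩
        exact ⟨w, hw, by rw [← hag w (Or.inr (hI i hi w hw)), ← hag i (Or.inl rfl)]; exact hwi⟩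
      · rintro ⟨w, hw, hwi⟩
        exact ⟨w, hw, by rw [hag w (Or.inr (hI i hi w hw)), hag i (Or.inl rfl)]; exact hwi⟩
    by_cases h : ∃ w ∈ S i, ω w = ω i
    · rw [if_pos h, if_pos (this.1 h)]
    · rw [if_neg h, if_neg (fun h' => h (this.2 h'))]
  have havg : ∀ i ∈ I, ∀ ω : V → Fin K, ∑ c : Fin K, F i (Function.update ω i c) ≤
      Fintype.card (Fin K) := by
    intro i hi ω
    rw [hF]
    simp only
    rw [← Finset.sum_div, div_le_iff₀ hqpos]
    have hne : ∀ w ∈ S i, w ≠ i := by
      rintro w hw rfl
      exact hI w hi w hw hi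
    have h1 : ∀ c : Fin K, (if ∃ w ∈ S i, Function.update ω i c w = Function.update ω i c i
        then e else (1 : ℝ)) ≤ 1 + (if c ∈ (S i).image ω then (e - 1) else 0) := by
      intro c
      by_cases h : c ∈ (S i).image ω
      · rw [if_pos h]
        split_ifs
        · linarith
        · linarith
      · rw [if_neg h, if_neg]
        · simp
        · rintro ⟨w, hw, hwc⟩
          rw [Function.update_self, Function.update_of_ne (hne w hw)] at hwc
          exact h (Finset.mem_image.2 ⟨w, hw, hwc⟩)
    refine (Finset.sum_le_sum (fun c _ => h1 c)).trans ?_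
    rw [Finset.sum_add_distrib, Finset.sum_const, Finset.card_univ, Fintype.card_fin, nsmul_eq_mul,
      mul_one]
    have h2 : ∑ c : Fin K, (if c ∈ (S i).image ω then (e - 1) else 0) =
        ((S i).image ω).card * (e - 1) := by
      rw [← Finset.sum_filter, Finset.sum_const, nsmul_eq_mul]
      congr 3
      ext c; simp
    rw [h2]
    have h3 : (((S i).image ω).card : ℝ) ≤ s := by
      exact_mod_cast Finset.card_image_le.trans (hs i)
    have h4 : (K : ℝ) * q = K + (e - 1) * s := by rw [hq]; field_simp
    rw [h4]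
    nlinarith
  have hprod := prod_le F I I.card I rfl (Finset.Subset.refl _) hF0 hdep havg
    (by rw [Fintype.card_fin]; exact hK)
  have h5 : ∀ ω : V → Fin K, ∏ i ∈ I, F i ω =
      e ^ (I.filter (fun u => ∃ w ∈ S u, ω w = ω u)).card / q ^ I.card := by
    intro ω
    rw [hF]
    simp only
    rw [Finset.prod_div_distrib, Finset.prod_const]
    congr 1
    rw [Finset.prod_ite, Finset.prod_const, Finset.prod_const_one, mul_one]
  simp only [h5] at hprod
  rw [← Finset.sum_div, div_le_iff₀ (pow_pos hqpos _)] at hprod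
  have h6 : (cnt (fun ω : V → Fin K => m ≤ (I.filter (fun u => ∃ w ∈ S u, ω w = ω u)).card) : ℝ) *
      e ^ m ≤ ∑ ω : V → Fin K, e ^ (I.filter (fun u => ∃ w ∈ S u, ω w = ω u)).card := by
    rw [cnt, Finset.card_eq_sum_ones, Nat.cast_sum, Finset.sum_mul]
    refine (Finset.sum_le_sum (f := fun _ => ((1 : ℕ) : ℝ) * e ^ m)
      (g := fun ω => e ^ (I.filter (fun u => ∃ w ∈ S u, ω w = ω u)).card) ?_).trans ?_
    · intro ω hω
      rw [mem_ev] at hω
      rw [Nat.cast_one, one_mul]
      exact pow_le_pow_right₀ he1.le hω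
    · refine Finset.sum_le_sum_of_subset_of_nonneg (Finset.subset_univ _) ?_
      intro ω _ _
      positivity
  have h7 : q ^ I.card ≤ Real.exp (2 * s * I.card / K) := by
    have h8 : q ≤ Real.exp (2 * s / K) := by
      have h9 : q ≤ 2 * s / K + 1 := by
        rw [hq]
        have : (e - 1) * s / K ≤ 2 * s / K := by
          apply div_le_div_of_nonneg_right _ hKpos.le
          exact mul_le_mul_of_nonneg_right (by linarith) (by positivity)
        linarith
      exact h9.trans (Real.add_one_le_exp _)
    calc q ^ I.card ≤ (Real.exp (2 * s / K)) ^ I.card := pow_le_pow_left₀ hqpos.le h8 _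
      _ = Real.exp (2 * s * I.card / K) := by
          rw [← Real.exp_nat_mul]; congr 1; ring
  have h10 : e ^ m = Real.exp m := by rw [he, ← Real.exp_nat_mul, mul_one]
  have h11 : (cnt (fun ω : V → Fin K => m ≤ (I.filter (fun u => ∃ w ∈ S u, ω w = ω u)).card) : ℝ) *
      Real.exp m ≤ (Real.exp (2 * s * I.card / K - m) * Fintype.card (V → Fin K)) * Real.exp m := by
    rw [← h10]
    refine h6.trans (hprod.trans ?_)
    rw [h10]
    calc (Fintype.card (V → Fin K) : ℝ) * q ^ I.card
        ≤ (Fintype.card (V → Fin K) : ℝ) * Real.exp (2 * s * I.card / K) :=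
          mul_le_mul_of_nonneg_left h7 (by positivity)
      _ = Real.exp (2 * s * I.card / K - m) * Fintype.card (V → Fin K) * Real.exp m := by
          have h12 : Real.exp (2 * s * I.card / K) =
              Real.exp (2 * s * I.card / K - m) * Real.exp m := by
            rw [← Real.exp_add]; congr 1; ring
          rw [h12]; ring
  exact le_of_mul_le_mul_right h11 (Real.exp_pos _)

/-- there is a walk of length at most `k` -/
def Near {V : Type} (G : SimpleGraph V) (k : ℕ) (u w : V) : Prop := ∃ p : G.Walk u w, p.length ≤ k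

theorem Near.symm {V : Type} {G : SimpleGraph V} {k : ℕ} {u w : V} (h : Near G k u w) :
    Near G k w u := by
  obtain ⟨p, hp⟩ := h
  exact ⟨p.reverse, by rw [SimpleGraph.Walk.length_reverse]; exact hp⟩

theorem Near.trans {V : Type} {G : SimpleGraph V} {k l : ℕ} {u v w : V} (h : Near G k u v)
    (h' : Near G l v w) : Near G (k + l) u w := by
  obtain ⟨p, hp⟩ := h
  obtain ⟨p', hp'⟩ := h'
  exact ⟨p.append p', by rw [SimpleGraph.Walk.length_append]; omega⟩

theorem near_card {V : Type} [Fintype V] (G : SimpleGraph V) [DecidableRel G.Adj] (D : ℕ)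
    (hD : ∀ v, G.degree v ≤ D) (k : ℕ) (u : V) :
    (univ.filter (fun w => Near G k u w)).card ≤ (D + 1) ^ k := by
  induction k generalizing u with
  | zero =>
    have : univ.filter (fun w => Near G 0 u w) ⊆ {u} := by
      intro w hw
      obtain ⟨p, hp⟩ := (Finset.mem_filter.1 hw).2
      rw [Finset.mem_singleton]
      cases p with
      | nil => rfl
      | cons h p => simp at hp
    refine (Finset.card_le_card this).trans ?_
    simp
  | succ k ih =>
    have : univ.filter (fun w => Near G (k + 1) u w) ⊆
        {u} ∪ (G.neighborFinset u).biUnion (fun x => univ.filter (fun w => Near G k x w)) := by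
      intro w hw
      obtain ⟨p, hp⟩ := (Finset.mem_filter.1 hw).2
      rw [Finset.mem_union, Finset.mem_singleton, Finset.mem_biUnion]
      cases p with
      | nil => left; rfl
      | cons h p =>
        right
        rw [SimpleGraph.Walk.length_cons] at hp
        exact ⟨_, by simpa using h, Finset.mem_filter.2 ⟨Finset.mem_univ _, p, by omega⟩⟩
    refine (Finset.card_le_card this).trans ((Finset.card_union_le _ _).trans ?_)
    have h1 : ((G.neighborFinset u).biUnion
        (fun x => univ.filter (fun w => Near G k x w))).card ≤ D * (D + 1) ^ k := by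
      refine Finset.card_biUnion_le.trans ?_
      refine (Finset.sum_le_sum (fun x _ => ih x)).trans ?_
      rw [Finset.sum_const, smul_eq_mul, SimpleGraph.card_neighborFinset_eq_degree]
      exact Nat.mul_le_mul_right _ (hD u)
    rw [Finset.card_singleton, pow_succ]
    have h2 : 1 ≤ (D + 1) ^ k := Nat.one_le_pow _ _ (by omega)
    calc 1 + _ ≤ (D + 1) ^ k + D * (D + 1) ^ k := Nat.add_le_add h2 h1
      _ = (D + 1) ^ k * (D + 1) := by ring

/-- random types -/
theorem exists_types {V : Type} [Fintype V] (G : SimpleGraph V) [DecidableRel G.Adj]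
    (K D s h m m0 : ℕ) (hK : 1 ≤ K) (hD : ∀ v, G.degree v ≤ D)
    (S : V → Finset V) (hs : ∀ u, (S u).card ≤ s) (hloc : ∀ u, ∀ w ∈ S u, Near G h u w)
    (γ : V → ℕ) (hγS : ∀ u, ∀ w ∈ S u, γ u ≠ γ w)
    (x : ℝ) (hx : 0 ≤ x) (hx1 : x ≤ 1)
    (h4 : 4 * (K * Real.exp (-(x ^ 2 * D / (3 * K))) + m * Real.exp (2 * s * D / K - m0)) *
      ((D + 1) ^ (2 * (h + 1)) : ℕ) ≤ 1) :
    ∃ t : V → ℕ, (∀ v, t v < K) ∧
      (∀ v y, ((G.neighborFinset v).filter (fun u => t u = y)).card ≤ ⌊(1 + x) * D / K⌋₊) ∧
      ∀ v, ∀ l < m, ((G.neighborFinset v).filter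
        (fun u => γ u = l ∧ ∃ w ∈ S u, t w = t u)).card < m0 := by
  have : Nonempty (Fin K) := ⟨⟨0, hK⟩⟩
  have hcardpos : 0 < Fintype.card (V → Fin K) := Fintype.card_pos
  have hKpos : (0 : ℝ) < K := by exact_mod_cast hK
  set w := ⌊(1 + x) * D / K⌋₊ with hw
  have hm : (1 + x) * D / K ≤ ((w + 1 : ℕ) : ℝ) := by
    push_cast; exact (Nat.lt_floor_add_one _).le
  set B1 : V → (V → Fin K) → Prop := fun v ω => ∃ y : Fin K, w + 1 ≤ ((G.neighborFinset v).filter
      (fun u => ω u = y)).card with hB1
  set B2 : V → (V → Fin K) → Prop := fun v ω => ∃ l : Fin m, m0 ≤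
      (((G.neighborFinset v).filter (fun u => γ u = l)).filter
        (fun u => ∃ w ∈ S u, ω w = ω u)).card with hB2
  set Sv : V → Finset V := fun v => G.neighborFinset v ∪ (G.neighborFinset v).biUnion S with hSv
  obtain ⟨ω, hω⟩ := lll (ι := V) univ (fun v (ω : V → Fin K) => B1 v ω ∨ B2 v ω) Sv
    (by
      intro v _ ω ω' hag hbad
      have hag1 : ∀ u ∈ G.neighborFinset v, ω u = ω' u := fun u hu =>
        hag u (by rw [hSv]; exact Finset.mem_union_left _ hu)
      have hag2 : ∀ u ∈ G.neighborFinset v, ∀ w ∈ S u, ω w = ω' w := fun u hu w hw =>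
        hag w (by
          rw [hSv]
          exact Finset.mem_union_right _ (Finset.mem_biUnion.2 ⟨u, hu, hw⟩))
      rcases hbad with ⟨y, hy⟩ | ⟨l, hl⟩
      · left
        refine ⟨y, le_trans hy (Finset.card_le_card ?_)⟩
        intro u hu
        rw [mem_filter] at hu ⊢
        exact ⟨hu.1, by rw [← hag1 u hu.1]; exact hu.2⟩
      · right
        refine ⟨l, le_trans hl (Finset.card_le_card ?_)⟩
        intro u hu
        rw [mem_filter, mem_filter] at hu ⊢
        obtain ⟨⟨hu1, hu2⟩, z, hz, hzu⟩ := hu
        exact ⟨⟨hu1, hu2⟩, z, hz, by rw [← hag2 u hu1 z hz, ← hag1 u hu1]; exact hzu⟩)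
    (K * Real.exp (-(x ^ 2 * D / (3 * K))) + m * Real.exp (2 * s * D / K - m0))
    ((D + 1) ^ (2 * (h + 1))) (by positivity)
    (by
      intro v _
      have hsub : ev (fun ω : V → Fin K => B1 v ω ∨ B2 v ω) ⊆
          ((Finset.univ : Finset (Fin K)).biUnion
            (fun y => ev (fun ω : V → Fin K => w + 1 ≤ ((G.neighborFinset v).filter
              (fun u => ω u = y)).card))) ∪
          ((Finset.univ : Finset (Fin m)).biUnion
            (fun l => ev (fun ω : V → Fin K => m0 ≤
              (((G.neighborFinset v).filter (fun u => γ u = l)).filter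
                (fun u => ∃ w ∈ S u, ω w = ω u)).card))) := by
        intro ω hω
        rw [mem_ev] at hω
        rw [Finset.mem_union, Finset.mem_biUnion, Finset.mem_biUnion]
        rcases hω with ⟨j, hj⟩ | ⟨l, hl⟩
        · left; exact ⟨j, Finset.mem_univ _, mem_ev.mpr hj⟩
        · right; exact ⟨l, Finset.mem_univ _, mem_ev.mpr hl⟩
      have h1 := (Finset.card_le_card hsub).trans ((Finset.card_union_le _ _).trans
        (Nat.add_le_add Finset.card_biUnion_le Finset.card_biUnion_le))
      have h2 : (cnt (fun ω : V → Fin K => B1 v ω ∨ B2 v ω) : ℝ) ≤ (∑ y : Fin K,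
          (cnt (fun ω : V → Fin K => w + 1 ≤ ((G.neighborFinset v).filter
              (fun u => ω u = y)).card) : ℝ)) + ∑ l : Fin m,
          (cnt (fun ω : V → Fin K => m0 ≤
              (((G.neighborFinset v).filter (fun u => γ u = l)).filter
                (fun u => ∃ w ∈ S u, ω w = ω u)).card) : ℝ) := by
        exact_mod_cast h1
      refine h2.trans ?_
      rw [add_mul]
      refine add_le_add ?_ ?_
      · refine (Finset.sum_le_sum (fun y _ => Pool.Agent.H238R2.HY.tail K D hK
          (G.neighborFinset v) (by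
          rw [SimpleGraph.card_neighborFinset_eq_degree]; exact hD v) y x hx hx1 (w + 1) hm)).trans ?_
        rw [Finset.sum_const, Finset.card_univ, Fintype.card_fin, nsmul_eq_mul]
        exact le_of_eq (by ring)
      · refine (Finset.sum_le_sum (g := fun _ => Real.exp (2 * s * D / K - m0) *
          Fintype.card (V → Fin K)) (fun l _ => ?_)).trans ?_
        · refine (conflict K s hK ((G.neighborFinset v).filter (fun u => γ u = l)) S hs ?_ m0).trans
            ?_
          · intro u hu z hz hzI
            have a1 := (Finset.mem_filter.1 hu).2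
            have a2 := (Finset.mem_filter.1 hzI).2
            exact hγS u z hz (a1.trans a2.symm)
          · refine mul_le_mul_of_nonneg_right (Real.exp_le_exp.2 ?_) (by positivity)
            have a3 : (((G.neighborFinset v).filter (fun u => γ u = l)).card : ℝ) ≤ D := by
              exact_mod_cast (Finset.card_filter_le _ _).trans (by
                rw [SimpleGraph.card_neighborFinset_eq_degree]; exact hD v)
            have a4 : 2 * (s : ℝ) * ((G.neighborFinset v).filter (fun u => γ u = l)).card / K ≤
                2 * s * D / K := by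
              apply div_le_div_of_nonneg_right _ hKpos.le
              exact mul_le_mul_of_nonneg_left a3 (by positivity)
            linarith
        · rw [Finset.sum_const, Finset.card_univ, Fintype.card_fin, nsmul_eq_mul]
          exact le_of_eq (by ring))
    (by
      intro v _
      have hnear : ∀ v, ∀ z ∈ Sv v, Near G (h + 1) v z := by
        intro v z hz
        rw [hSv] at hz
        rcases Finset.mem_union.1 hz with hz | hz
        · rw [SimpleGraph.mem_neighborFinset] at hz
          exact ⟨SimpleGraph.Walk.cons hz SimpleGraph.Walk.nil, by simp⟩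
        · obtain ⟨u, hu, hzu⟩ := Finset.mem_biUnion.1 hz
          rw [SimpleGraph.mem_neighborFinset] at hu
          have a1 : Near G 1 v u := ⟨SimpleGraph.Walk.cons hu SimpleGraph.Walk.nil, by simp⟩
          have a2 := a1.trans (hloc u z hzu)
          rwa [add_comm] at a2
      refine le_trans (Finset.card_le_card ?_) (near_card G D hD (2 * (h + 1)) v)
      intro j hj
      rw [mem_filter, Finset.not_disjoint_iff] at hj
      obtain ⟨z, hz1, hz2⟩ := hj.2
      rw [mem_filter]
      refine ⟨Finset.mem_univ _, ?_⟩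
      have a1 := (hnear v z hz1).trans (hnear j z hz2).symm
      rwa [← two_mul] at a1)
    (by exact_mod_cast h4) (Nat.one_le_pow _ _ (by omega)) hcardpos
  refine ⟨fun v => (ω v : ℕ), fun v => (ω v).2, ?_, ?_⟩
  · intro v y
    by_cases hy : y < K
    · have h1 := hω v (mem_univ v)
      rw [not_or] at h1
      have h2 := h1.1
      rw [hB1] at h2
      push Not at h2
      have h3 := h2 ⟨y, hy⟩
      have h5 : (G.neighborFinset v).filter (fun u => (ω u : ℕ) = y) =
          (G.neighborFinset v).filter (fun u => ω u = ⟨y, hy⟩) := by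
        apply Finset.filter_congr
        intro u _
        rw [Fin.ext_iff]
      rw [h5]
      omega
    · have h3 : (G.neighborFinset v).filter (fun u => (ω u : ℕ) = y) = ∅ := by
        apply Finset.filter_eq_empty_iff.2
        intro u _ h
        exact hy (by rw [← h]; exact (ω u).2)
      rw [h3]; simp
  · intro v l hl
    have h1 := hω v (mem_univ v)
    rw [not_or] at h1
    have h2 := h1.2
    rw [hB2] at h2
    push Not at h2
    have h3 := h2 ⟨l, hl⟩
    refine lt_of_le_of_lt (Finset.card_le_card ?_) h3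
    intro u hu
    rw [mem_filter] at hu
    rw [mem_filter, mem_filter]
    obtain ⟨hu1, hu2, z, hz, hzu⟩ := hu
    exact ⟨⟨hu1, hu2⟩, z, hz, Fin.ext hzu⟩

end Pool.Agent.Helper311.Glue
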