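import Mathlib

set_option autoImplicit false

/-!
# Graphs without a cactus-like subgraph: hitting sets

Combinatorial part of the bound `c(F) ≤ ∑ c(H i)`.
-/

namespace Pool.Agent.Helper311.Glue

open Finset Classical

/-- greedy colouring of a digraph of out-degree at most `s` -/
theorem degen {V : Type} (S : V → Finset V) (s : ℕ) (hs : ∀ v, (S v).card ≤ s)
    (hn : ∀ v, v ∉ S v) :
    ∀ (n : ℕ) (Y : Finset V), Y.card = n → ∃ γ : V → ℕ, (∀ v, γ v < 2 * s + 1) ∧
      ∀ u ∈ Y, ∀ w ∈ Y, w ∈ S u → γ u ≠ γ w := by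
  intro n
  induction n with
  | zero =>
    intro Y hY
    rw [Finset.card_eq_zero] at hY
    subst hY
    exact ⟨fun _ => 0, fun _ => by simp, by simp⟩
  | succ n ih =>
    intro Y hY
    have h1 : ∃ v ∈ Y, (Y.filter (fun u => v ∈ S u)).card ≤ s := by
      by_contra hcon
      push Not at hcon
      have h2 : ∑ v ∈ Y, (Y.filter (fun u => v ∈ S u)).card =
          ∑ u ∈ Y, (Y.filter (fun v => v ∈ S u)).card := by
        simp only [Finset.card_filter]
        exact Finset.sum_comm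
      have h3 : ∑ u ∈ Y, (Y.filter (fun v => v ∈ S u)).card ≤ ∑ _u ∈ Y, s := by
        refine Finset.sum_le_sum (fun u _ => le_trans (Finset.card_le_card ?_) (hs u))
        intro v hv
        exact (Finset.mem_filter.1 hv).2
      have h4 : ∑ v ∈ Y, (s + 1) ≤ ∑ v ∈ Y, (Y.filter (fun u => v ∈ S u)).card :=
        Finset.sum_le_sum (fun v hv => hcon v hv)
      rw [h2] at h4
      have h5 := h4.trans h3
      simp only [Finset.sum_const, smul_eq_mul, hY] at h5
      nlinarith
    obtain ⟨v, hv, hvs⟩ := h1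
    obtain ⟨γ, hγ1, hγ2⟩ := ih (Y.erase v) (by rw [Finset.card_erase_of_mem hv, hY]; rfl)
    have h6 : (((S v).image γ) ∪ ((Y.filter (fun u => v ∈ S u)).image γ)).card <
        (Finset.range (2 * s + 1)).card := by
      rw [Finset.card_range]
      have a1 := Finset.card_union_le ((S v).image γ) ((Y.filter (fun u => v ∈ S u)).image γ)
      have a2 := Finset.card_image_le (s := S v) (f := γ)
      have a3 := Finset.card_image_le (s := Y.filter (fun u => v ∈ S u)) (f := γ)
      have a4 := hs v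
      omega
    obtain ⟨c, hc1, hc2⟩ := Finset.exists_mem_notMem_of_card_lt_card h6
    rw [Finset.mem_range] at hc1
    rw [Finset.mem_union, not_or] at hc2
    refine ⟨Function.update γ v c, ?_, ?_⟩
    · intro w
      by_cases hw : w = v
      · subst hw; simpa using hc1
      · rw [Function.update_of_ne hw]; exact hγ1 w
    · intro u hu w hw hwu
      by_cases huv : u = v
      · subst huv
        have hwu' : w ≠ u := by rintro rfl; exact hn _ hwu
        rw [Function.update_self, Function.update_of_ne hwu']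
        intro h
        exact hc2.1 (Finset.mem_image.2 ⟨w, hwu, h.symm⟩)
      · by_cases hwv : w = v
        · subst hwv
          rw [Function.update_self, Function.update_of_ne huv]
          intro h
          exact hc2.2 (Finset.mem_image.2 ⟨u, Finset.mem_filter.2 ⟨hu, hwu⟩, h⟩)
        · rw [Function.update_of_ne huv, Function.update_of_ne hwv]
          exact hγ2 u (Finset.mem_erase.2 ⟨huv, hu⟩) w (Finset.mem_erase.2 ⟨hwv, hw⟩) hwu

/-- `φ` is an embedding of `H` (as a not necessarily induced subgraph) -/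
def Emb {U V : Type} (H : SimpleGraph U) (G : SimpleGraph V) (φ : U → V) : Prop :=
  Function.Injective φ ∧ ∀ a b, H.Adj a b → G.Adj (φ a) (φ b)

/-- `T` is the vertex set of a copy of `H` -/
def Cp {U V : Type} (H : SimpleGraph U) (G : SimpleGraph V) (T : Set V) : Prop :=
  ∃ φ : U → V, Emb H G φ ∧ Set.range φ = T

/-- Elimination of poor vertices: there is a residual set `R`, all of whose vertices are rich in
`R`, and the other vertices have types and small hitting sets. -/
theorem hit {V ι : Type} (C : ι → Set V → Prop) (n : ℕ) (i0 : ι) :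
    ∀ (k : ℕ) (Y : Finset V), Y.card = k → ∃ (R : Finset V) (τ : V → ι) (S : V → Finset V),
      R ⊆ Y ∧ (∀ v ∈ R, ∀ i, ∀ Z : Finset V, Z.card ≤ n → v ∉ Z →
        ∃ T : Set V, v ∈ T ∧ C i T ∧ T ⊆ R ∧ ∀ w ∈ T, w ∉ Z) ∧
      (∀ v, (S v).card ≤ n) ∧ (∀ v, v ∉ S v) ∧
      ∀ i (T : Set V), T.Nonempty → C i T → T ⊆ Y → (∀ u ∈ T, u ∉ R ∧ τ u = i) →
        ∃ u ∈ T, ∃ w ∈ T, w ∈ S u := by
  intro k
  induction k with
  | zero =>
    intro Y hY
    rw [Finset.card_eq_zero] at hY
    subst hY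
    refine ⟨∅, fun _ => i0, fun _ => ∅, by simp, by simp, by simp, by simp, ?_⟩
    intro i T hT _ hTY _
    obtain ⟨v, hv⟩ := hT
    exact absurd (hTY hv) (by simp)
  | succ k ih =>
    intro Y hY
    by_cases hp : ∃ v ∈ Y, ∃ i, ∃ Z : Finset V, Z.card ≤ n ∧ v ∉ Z ∧
      ∀ T : Set V, v ∈ T → C i T → T ⊆ Y → ∃ w ∈ T, w ∈ Z
    · obtain ⟨v, hv, i, Z, hZ1, hZ2, hZ3⟩ := hp
      obtain ⟨R, τ, S, hR1, hR2, hS1, hS2, hS3⟩ :=
        ih (Y.erase v) (by rw [Finset.card_erase_of_mem hv, hY]; rfl)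
      refine ⟨R, Function.update τ v i, Function.update S v Z,
        hR1.trans (Finset.erase_subset _ _), hR2, ?_, ?_, ?_⟩
      · intro w
        by_cases hw : w = v
        · subst hw; simpa using hZ1
        · rw [Function.update_of_ne hw]; exact hS1 w
      · intro w
        by_cases hw : w = v
        · subst hw; simpa using hZ2
        · rw [Function.update_of_ne hw]; exact hS2 w
      · intro j T hT hC hTY hτ
        by_cases hvT : v ∈ T
        · have hji := (hτ v hvT).2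
          rw [Function.update_self] at hji
          subst hji
          obtain ⟨w, hwT, hwZ⟩ := hZ3 T hvT hC hTY
          exact ⟨v, hvT, w, hwT, by rw [Function.update_self]; exact hwZ⟩
        · have hTY' : T ⊆ ((Y.erase v : Finset V) : Set V) := by
            intro u hu
            have hne : u ≠ v := by rintro rfl; exact hvT hu
            exact Finset.mem_coe.2 (Finset.mem_erase.2 ⟨hne, Finset.mem_coe.1 (hTY hu)⟩)
          obtain ⟨u, hu, w, hw, hwu⟩ := hS3 j T hT hC hTY' (fun u hu => by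
            have hne : u ≠ v := by rintro rfl; exact hvT hu
            have := hτ u hu
            rwa [Function.update_of_ne hne] at this)
          have hne : u ≠ v := by rintro rfl; exact hvT hu
          exact ⟨u, hu, w, hw, by rw [Function.update_of_ne hne]; exact hwu⟩
    · push Not at hp
      refine ⟨Y, fun _ => i0, fun _ => ∅, Finset.Subset.refl _, ?_, by simp, by simp, ?_⟩
      · intro v hv i Z hZ hvZ
        obtain ⟨T, h1, h2, h3, h4⟩ := hp v hv i Z hZ hvZ
        exact ⟨T, h1, h2, h3, h4⟩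
      · intro i T hT _ hTY hR
        obtain ⟨v, hv⟩ := hT
        exact absurd (hTY hv) (hR v hv).1

/-- `S` is built from the core `C` by adding pieces: each piece embeds into some `H i` and meets
what was built before in at most one vertex; there are no edges between the piece and what was
built before, other than those inside the piece. -/
inductive Built {W ι : Type} (F : SimpleGraph W) {U : ι → Type} (H : ∀ i, SimpleGraph (U i))
    (C : Finset W) : Finset W → Prop
  | core : Built F H C C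
  | glue (S B : Finset W) (i : ι) (hS : Built F H C S) (hSB : (S ∩ B).card ≤ 1)
      (hno : ∀ x ∈ S \ B, ∀ y ∈ B \ S, ¬ F.Adj x y)
      (hB : (F.induce (B : Set W)).IsContained (H i)) : Built F H C (S ∪ B)

/-- gluing two embeddings -/
theorem glue_maps {W V : Type} (F : SimpleGraph W) (G : SimpleGraph V) (Y : Set V)
    (S B : Finset W) (f g : W → V) (hno : ∀ x ∈ S \ B, ∀ y ∈ B \ S, ¬ F.Adj x y)
    (hf1 : ∀ x ∈ S, f x ∈ Y) (hf2 : ∀ x ∈ S, ∀ y ∈ S, f x = f y → x = y)
    (hf3 : ∀ x ∈ S, ∀ y ∈ S, F.Adj x y → G.Adj (f x) (f y))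
    (hg1 : ∀ x ∈ B, g x ∈ Y) (hg2 : ∀ x ∈ B, ∀ y ∈ B, g x = g y → x = y)
    (hg3 : ∀ x ∈ B, ∀ y ∈ B, F.Adj x y → G.Adj (g x) (g y))
    (hg4 : ∀ x ∈ S ∩ B, g x = f x) (hg5 : ∀ x ∈ S \ B, ∀ y ∈ B, f x ≠ g y) :
    ∃ F' : W → V, (∀ x ∈ S, F' x = f x) ∧ (∀ x ∈ S ∪ B, F' x ∈ Y) ∧
      (∀ x ∈ S ∪ B, ∀ y ∈ S ∪ B, F' x = F' y → x = y) ∧
      ∀ x ∈ S ∪ B, ∀ y ∈ S ∪ B, F.Adj x y → G.Adj (F' x) (F' y) := by
  have hl : ∀ x ∈ B, (if x ∈ S then f x else g x) = g x := by
    intro x hx
    by_cases hxS : x ∈ S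
    · rw [if_pos hxS, hg4 x (Finset.mem_inter.2 ⟨hxS, hx⟩)]
    · rw [if_neg hxS]
  refine ⟨fun x => if x ∈ S then f x else g x, fun x hx => by simp [hx], ?_, ?_, ?_⟩
  · intro x hx
    by_cases hxS : x ∈ S
    · simp only [hxS, if_true]; exact hf1 x hxS
    · have hxB : x ∈ B := (Finset.mem_union.1 hx).resolve_left hxS
      simp only [hxS, if_false]; exact hg1 x hxB
  · intro x hx y hy hxy
    simp only at hxy
    by_cases hxB : x ∈ B
    · by_cases hyB : y ∈ B
      · rw [hl x hxB, hl y hyB] at hxy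
        exact hg2 x hxB y hyB hxy
      · have hyS : y ∈ S := (Finset.mem_union.1 hy).resolve_right hyB
        rw [hl x hxB, if_pos hyS] at hxy
        exact absurd hxy.symm (hg5 y (Finset.mem_sdiff.2 ⟨hyS, hyB⟩) x hxB)
    · have hxS : x ∈ S := (Finset.mem_union.1 hx).resolve_right hxB
      by_cases hyS : y ∈ S
      · rw [if_pos hxS, if_pos hyS] at hxy
        exact hf2 x hxS y hyS hxy
      · have hyB : y ∈ B := (Finset.mem_union.1 hy).resolve_left hyS
        rw [hl y hyB, if_pos hxS] at hxy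
        exact absurd hxy (hg5 x (Finset.mem_sdiff.2 ⟨hxS, hxB⟩) y hyB)
  · intro x hx y hy hxy
    simp only
    by_cases hxB : x ∈ B
    · by_cases hyB : y ∈ B
      · rw [hl x hxB, hl y hyB]
        exact hg3 x hxB y hyB hxy
      · have hyS : y ∈ S := (Finset.mem_union.1 hy).resolve_right hyB
        by_cases hxS : x ∈ S
        · rw [if_pos hxS, if_pos hyS]
          exact hf3 x hxS y hyS hxy
        · exact absurd hxy.symm (hno y (Finset.mem_sdiff.2 ⟨hyS, hyB⟩) x
            (Finset.mem_sdiff.2 ⟨hxB, hxS⟩))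
    · have hxS : x ∈ S := (Finset.mem_union.1 hx).resolve_right hxB
      by_cases hyS : y ∈ S
      · rw [if_pos hxS, if_pos hyS]
        exact hf3 x hxS y hyS hxy
      · have hyB : y ∈ B := (Finset.mem_union.1 hy).resolve_left hyS
        exact absurd hxy (hno x (Finset.mem_sdiff.2 ⟨hxS, hxB⟩) y
            (Finset.mem_sdiff.2 ⟨hyB, hyS⟩))

/-- a set all of whose vertices are rich contains every built graph whose core it contains -/
theorem embed {W ι V : Type} [Fintype W] (F : SimpleGraph W) {U : ι → Type}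
    [∀ i, Fintype (U i)] (H : ∀ i, SimpleGraph (U i)) (G : SimpleGraph V)
    (htr : ∀ i (a b : U i), ∃ α : H i ≃g H i, α a = b) (hU : ∀ i, 1 < Fintype.card (U i))
    (Y : Finset V) (hY : Y.Nonempty)
    (hrich : ∀ v ∈ Y, ∀ i, ∀ Z : Finset V, Z.card ≤ Fintype.card W → v ∉ Z →
      ∃ T : Set V, v ∈ T ∧ Cp (H i) G T ∧ T ⊆ Y ∧ ∀ w ∈ T, w ∉ Z)
    (C : Finset W) (f0 : W → V) (hf01 : ∀ x ∈ C, f0 x ∈ Y)
    (hf02 : ∀ x ∈ C, ∀ y ∈ C, f0 x = f0 y → x = y)
    (hf03 : ∀ x ∈ C, ∀ y ∈ C, F.Adj x y → G.Adj (f0 x) (f0 y))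
    (S : Finset W) (hS : Built F H C S) :
    ∃ f : W → V, (∀ x ∈ S, f x ∈ Y) ∧ (∀ x ∈ S, ∀ y ∈ S, f x = f y → x = y) ∧
      ∀ x ∈ S, ∀ y ∈ S, F.Adj x y → G.Adj (f x) (f y) := by
  induction hS with
  | core => exact ⟨f0, hf01, hf02, hf03⟩
  | glue S B i hS hSB hno hB ih =>
    obtain ⟨f, hf1, hf2, hf3⟩ := ih
    obtain ⟨ψ⟩ := hB
    have hcard : ∀ A : Finset W, (A.image f).card ≤ Fintype.card W := fun A =>
      Finset.card_image_le.trans (Finset.card_le_univ _)
    -- reduce to finding an embedding of the piece that agrees with `f` on the intersection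
    suffices hkey : ∃ g : W → V, (∀ x ∈ B, g x ∈ Y) ∧ (∀ x ∈ B, ∀ y ∈ B, g x = g y → x = y) ∧
        (∀ x ∈ B, ∀ y ∈ B, F.Adj x y → G.Adj (g x) (g y)) ∧ (∀ x ∈ S ∩ B, g x = f x) ∧
        (∀ x ∈ S \ B, ∀ y ∈ B, f x ≠ g y) by
      obtain ⟨g, hg1, hg2, hg3, hg4, hg5⟩ := hkey
      obtain ⟨f', -, h1, h2, h3⟩ := glue_maps F G Y S B f g hno hf1 hf2 hf3 hg1 hg2 hg3 hg4 hg5
      exact ⟨f', h1, h2, h3⟩
    -- an extension of `ψ` to all of `W`
    rcases B.eq_empty_or_nonempty with hBe | hBne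
    · subst hBe
      exact ⟨f, by simp, by simp, by simp, by simp, by simp⟩
    obtain ⟨x0, hx0⟩ := hBne
    set ψ' : W → U i := fun x => if hx : x ∈ B then ψ.toHom ⟨x, hx⟩ else ψ.toHom ⟨x0, hx0⟩ with hψ'
    have hψinj : ∀ x ∈ B, ∀ y ∈ B, ψ' x = ψ' y → x = y := by
      intro x hx y hy hxy
      simp only [hψ', hx, hy, dif_pos] at hxy
      have := ψ.injective hxy
      simpa using this
    have hψadj : ∀ x ∈ B, ∀ y ∈ B, F.Adj x y → (H i).Adj (ψ' x) (ψ' y) := by
      intro x hx y hy hxy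
      simp only [hψ', hx, hy, dif_pos]
      exact ψ.toHom.map_adj (by simpa using hxy)
    rcases Nat.lt_or_ge (S ∩ B).card 1 with h0 | h1
    · -- disjoint piece
      have hdis : S ∩ B = ∅ := Finset.card_eq_zero.1 (by omega)
      have hv : ∃ v ∈ Y, v ∉ S.image f := by
        rcases S.eq_empty_or_nonempty with hSe | ⟨b, hb⟩
        · subst hSe
          obtain ⟨v, hv⟩ := hY
          exact ⟨v, hv, by simp⟩
        · obtain ⟨T, hT1, ⟨φ, hφ, hφT⟩, hT3, hT4⟩ := hrich (f b) (hf1 b hb) i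
            ((S.erase b).image f) (hcard _) (by
              intro hmem
              obtain ⟨y, hy, hyb⟩ := Finset.mem_image.1 hmem
              exact (Finset.mem_erase.1 hy).1
                (hf2 y (Finset.mem_erase.1 hy).2 b hb hyb))
          rw [← hφT] at hT1
          obtain ⟨a, ha⟩ := hT1
          obtain ⟨a', ha'⟩ := Fintype.exists_ne_of_one_lt_card (hU i) a
          have hmem : φ a' ∈ T := by rw [← hφT]; exact ⟨a', rfl⟩
          refine ⟨φ a', hT3 hmem, ?_⟩
          intro himg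
          obtain ⟨y, hy, hya⟩ := Finset.mem_image.1 himg
          by_cases hyb : y = b
          · subst hyb
            rw [← ha] at hya
            exact ha' (hφ.1 hya).symm
          · exact hT4 _ hmem (Finset.mem_image.2 ⟨y, Finset.mem_erase.2 ⟨hyb, hy⟩, hya⟩)
      obtain ⟨v, hvY, hvS⟩ := hv
      obtain ⟨T, hT1, ⟨φ, hφ, hφT⟩, hT3, hT4⟩ := hrich v hvY i (S.image f) (hcard _) hvS
      have hmem : ∀ a, φ a ∈ T := fun a => by rw [← hφT]; exact ⟨a, rfl⟩
      refine ⟨fun x => φ (ψ' x), fun x _ => hT3 (hmem _), ?_, ?_, ?_, ?_⟩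
      · intro x hx y hy hxy
        exact hψinj x hx y hy (hφ.1 hxy)
      · intro x hx y hy hxy
        exact hφ.2 _ _ (hψadj x hx y hy hxy)
      · intro x hx; rw [hdis] at hx; simp at hx
      · intro x hx y hy hxy
        exact hT4 _ (hmem (ψ' y)) (Finset.mem_image.2 ⟨x, (Finset.mem_sdiff.1 hx).1, hxy⟩)
    · -- piece glued at one vertex
      obtain ⟨b, hb⟩ := Finset.card_eq_one.1 (le_antisymm hSB h1)
      have hbSB : b ∈ S ∩ B := by rw [hb]; simp
      have hbS := (Finset.mem_inter.1 hbSB).1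
      have hbB := (Finset.mem_inter.1 hbSB).2
      obtain ⟨T, hT1, ⟨φ, hφ, hφT⟩, hT3, hT4⟩ := hrich (f b) (hf1 b hbS) i
        ((S.erase b).image f) (hcard _) (by
          intro hmem
          obtain ⟨y, hy, hyb⟩ := Finset.mem_image.1 hmem
          exact (Finset.mem_erase.1 hy).1 (hf2 y (Finset.mem_erase.1 hy).2 b hbS hyb))
      have hmem : ∀ a, φ a ∈ T := fun a => by rw [← hφT]; exact ⟨a, rfl⟩
      rw [← hφT] at hT1
      obtain ⟨a, ha⟩ := hT1
      obtain ⟨α, hα⟩ := htr i (ψ' b) a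
      refine ⟨fun x => φ (α (ψ' x)), fun x _ => hT3 (hmem _), ?_, ?_, ?_, ?_⟩
      · intro x hx y hy hxy
        exact hψinj x hx y hy (α.injective (hφ.1 hxy))
      · intro x hx y hy hxy
        exact hφ.2 _ _ (α.map_adj_iff.2 (hψadj x hx y hy hxy))
      · intro x hx
        rw [hb, Finset.mem_singleton] at hx
        subst hx
        simp only
        rw [hα, ha]
      · intro x hx y hy hxy
        have hxb : x ≠ b := by
          rintro rfl
          exact (Finset.mem_sdiff.1 hx).2 hbB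
        exact hT4 _ (hmem (α (ψ' y))) (Finset.mem_image.2
          ⟨x, Finset.mem_erase.2 ⟨hxb, (Finset.mem_sdiff.1 hx).1⟩, hxy⟩)

/-- `S` is built from the core `C` by adding pieces at vertices of the core: each piece embeds into
some rooted graph `(H i, b i)`, meets what was built before in at most one vertex, and if there is
such a vertex, it lies in `C` and goes to the root `b i`. -/
inductive Attached {W ι : Type} (F : SimpleGraph W) {U : ι → Type} (H : ∀ i, SimpleGraph (U i))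
    (b : ∀ i, U i) (C : Finset W) : Finset W → Prop
  | core : Attached F H b C C
  | glue (S B : Finset W) (i : ι) (hS : Attached F H b C S) (hSB : (S ∩ B).card ≤ 1)
      (hno : ∀ x ∈ S \ B, ∀ y ∈ B \ S, ¬ F.Adj x y)
      (φ : (F.induce (B : Set W)).Copy (H i))
      (hφ : ∀ x (hx : x ∈ B), x ∈ S → x ∈ C ∧ φ ⟨x, hx⟩ = b i) : Attached F H b C (S ∪ B)

/-- attaching rooted pieces to a core in a set of rich vertices -/
theorem attach {W ι V : Type} [Fintype W] (F : SimpleGraph W) {U : ι → Type}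
    (H : ∀ i, SimpleGraph (U i)) (b : ∀ i, U i) (G : SimpleGraph V)
    (Y : Finset V) (hY : Fintype.card W < Y.card)
    (hrich : ∀ v ∈ Y, ∀ i, ∀ Z : Finset V, Z.card ≤ Fintype.card W → v ∉ Z →
      ∃ φ : U i → V, Emb (H i) G φ ∧ φ (b i) = v ∧ ∀ a, φ a ∉ Z)
    (C : Finset W) (f0 : W → V) (hf01 : ∀ x ∈ C, f0 x ∈ Y)
    (hf02 : ∀ x ∈ C, ∀ y ∈ C, f0 x = f0 y → x = y)
    (hf03 : ∀ x ∈ C, ∀ y ∈ C, F.Adj x y → G.Adj (f0 x) (f0 y))
    (S : Finset W) (hS : Attached F H b C S) :
    C ⊆ S ∧ ∃ f : W → V, (∀ x ∈ C, f x ∈ Y) ∧ (∀ x ∈ S, ∀ y ∈ S, f x = f y → x = y) ∧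
      ∀ x ∈ S, ∀ y ∈ S, F.Adj x y → G.Adj (f x) (f y) := by
  induction hS with
  | core => exact ⟨Finset.Subset.refl _, f0, hf01, hf02, hf03⟩
  | glue S B i hS hSB hno ψ hψ ih =>
    obtain ⟨hCS, f, hf1, hf2, hf3⟩ := ih
    refine ⟨hCS.trans Finset.subset_union_left, ?_⟩
    have hcard : ∀ A : Finset W, (A.image f).card ≤ Fintype.card W := fun A =>
      Finset.card_image_le.trans (Finset.card_le_univ _)
    suffices hkey : ∃ g : W → V, (∀ x ∈ B, ∀ y ∈ B, g x = g y → x = y) ∧
        (∀ x ∈ B, ∀ y ∈ B, F.Adj x y → G.Adj (g x) (g y)) ∧ (∀ x ∈ S ∩ B, g x = f x) ∧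
        (∀ x ∈ S \ B, ∀ y ∈ B, f x ≠ g y) by
      obtain ⟨g, hg2, hg3, hg4, hg5⟩ := hkey
      obtain ⟨f', h0, -, h2, h3⟩ := glue_maps F G Set.univ S B f g hno (fun _ _ => Set.mem_univ _)
        hf2 hf3 (fun _ _ => Set.mem_univ _) hg2 hg3 hg4 hg5
      exact ⟨f', fun x hx => by rw [h0 x (hCS hx)]; exact hf1 x hx, h2, h3⟩
    rcases B.eq_empty_or_nonempty with hBe | hBne
    · subst hBe
      exact ⟨f, by simp, by simp, by simp, by simp⟩
    obtain ⟨x0, hx0⟩ := hBne
    set ψ' : W → U i := fun x => if hx : x ∈ B then ψ ⟨x, hx⟩ else ψ ⟨x0, hx0⟩ with hψ'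
    have hψinj : ∀ x ∈ B, ∀ y ∈ B, ψ' x = ψ' y → x = y := by
      intro x hx y hy hxy
      simp only [hψ', hx, hy, dif_pos] at hxy
      have := ψ.injective hxy
      simpa using this
    have hψadj : ∀ x ∈ B, ∀ y ∈ B, F.Adj x y → (H i).Adj (ψ' x) (ψ' y) := by
      intro x hx y hy hxy
      simp only [hψ', hx, hy, dif_pos]
      exact ψ.toHom.map_adj (by simpa using hxy)
    rcases Nat.lt_or_ge (S ∩ B).card 1 with h0 | h1
    · have hdis : S ∩ B = ∅ := Finset.card_eq_zero.1 (by omega)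
      obtain ⟨v, hvY, hvS⟩ := Finset.exists_mem_notMem_of_card_lt_card
        (lt_of_le_of_lt (hcard S) hY)
      obtain ⟨φ, hφ, -, hφZ⟩ := hrich v hvY i (S.image f) (hcard _) hvS
      refine ⟨fun x => φ (ψ' x), ?_, ?_, ?_, ?_⟩
      · intro x hx y hy hxy
        exact hψinj x hx y hy (hφ.1 hxy)
      · intro x hx y hy hxy
        exact hφ.2 _ _ (hψadj x hx y hy hxy)
      · intro x hx; rw [hdis] at hx; simp at hx
      · intro x hx y hy hxy
        exact hφZ (ψ' y) (Finset.mem_image.2 ⟨x, (Finset.mem_sdiff.1 hx).1, hxy⟩)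
    · obtain ⟨z, hz⟩ := Finset.card_eq_one.1 (le_antisymm hSB h1)
      have hzSB : z ∈ S ∩ B := by rw [hz]; simp
      have hzS := (Finset.mem_inter.1 hzSB).1
      have hzB := (Finset.mem_inter.1 hzSB).2
      obtain ⟨hzC, hzb⟩ := hψ z hzB hzS
      obtain ⟨φ, hφ, hφv, hφZ⟩ := hrich (f z) (hf1 z hzC) i
        ((S.erase z).image f) (hcard _) (by
          intro hmem
          obtain ⟨y, hy, hyb⟩ := Finset.mem_image.1 hmem
          exact (Finset.mem_erase.1 hy).1 (hf2 y (Finset.mem_erase.1 hy).2 z hzS hyb))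
      refine ⟨fun x => φ (ψ' x), ?_, ?_, ?_, ?_⟩
      · intro x hx y hy hxy
        exact hψinj x hx y hy (hφ.1 hxy)
      · intro x hx y hy hxy
        exact hφ.2 _ _ (hψadj x hx y hy hxy)
      · intro x hx
        rw [hz, Finset.mem_singleton] at hx
        subst hx
        simp only [hψ', hzB, dif_pos]
        rw [hzb, hφv]
      · intro x hx y hy hxy
        have hxz : x ≠ z := by
          rintro rfl
          exact (Finset.mem_sdiff.1 hx).2 hzB
        exact hφZ (ψ' y) (Finset.mem_image.2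
          ⟨x, Finset.mem_erase.2 ⟨hxz, (Finset.mem_sdiff.1 hx).1⟩, hxy⟩)

end Pool.Agent.Helper311.Glue
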