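import Mathlib
import Pool.Agent.Helper311.Glue.Struct
import Pool.Agent.Helper311.Glue.Rand

set_option autoImplicit false

/-!
# Colouring with hitting sets: asymptotics
-/

namespace Pool.Agent.Helper311.Glue

open Finset Filter Classical

/-- `P` can be coloured properly with `n` colours -/
def ColOn {V : Type} (G : SimpleGraph V) (P : Set V) (n : ℕ) : Prop :=
  ∃ f : V → ℕ, (∀ v ∈ P, f v < n) ∧ ∀ u ∈ P, ∀ v ∈ P, G.Adj u v → f u ≠ f v

theorem uniq {n a b a' b' : ℕ} (hb : b < n) (hb' : b' < n) (h : a * n + b = a' * n + b') :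
    a = a' ∧ b = b' := by
  have hn : 0 < n := by omega
  have h1 : (a * n + b) / n = a := by
    rw [mul_comm, Nat.mul_add_div hn, Nat.div_eq_of_lt hb, add_zero]
  have h2 : (a' * n + b') / n = a' := by
    rw [mul_comm, Nat.mul_add_div hn, Nat.div_eq_of_lt hb', add_zero]
  have h3 : a = a' := by rw [← h1, ← h2, h]
  subst h3
  exact ⟨rfl, by omega⟩

theorem assemble {V : Type} (G : SimpleGraph V) (B : Set V) (t γ : V → ℕ) (K m n1 n2 : ℕ)
    (bad : V → Prop) (ht : ∀ v, t v < K) (hγ : ∀ v, γ v < m)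
    (h1 : ∀ y < K, ColOn G {v | v ∈ B ∧ t v = y ∧ ¬ bad v} n1)
    (h2 : ∀ l < m, ColOn G {v | v ∈ B ∧ γ v = l ∧ bad v} n2) : ColOn G B (K * n1 + m * n2) := by
  choose! f hf1 hf2 using h1
  choose! g hg1 hg2 using h2
  have hgood : ∀ v ∈ B, ¬ bad v → t v * n1 + f (t v) v < K * n1 := by
    intro v hv hb
    have a1 := hf1 (t v) (ht v) v ⟨hv, rfl, hb⟩
    have a2 : (t v + 1) * n1 ≤ K * n1 := Nat.mul_le_mul_right _ (ht v)
    rw [add_mul, one_mul] at a2
    omega
  have hbad : ∀ v ∈ B, bad v → γ v * n2 + g (γ v) v < m * n2 := by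
    intro v hv hb
    have a1 := hg1 (γ v) (hγ v) v ⟨hv, rfl, hb⟩
    have a2 : (γ v + 1) * n2 ≤ m * n2 := Nat.mul_le_mul_right _ (hγ v)
    rw [add_mul, one_mul] at a2
    omega
  refine ⟨fun v => if bad v then K * n1 + (γ v * n2 + g (γ v) v) else t v * n1 + f (t v) v, ?_, ?_⟩
  · intro v hv
    by_cases hb : bad v
    · simp only [hb, if_true]
      have := hbad v hv hb
      omega
    · simp only [hb, if_false]
      have := hgood v hv hb
      omega
  · intro u hu v hv huv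
    by_cases hbu : bad u
    · by_cases hbv : bad v
      · simp only [hbu, hbv, if_true]
        intro h
        have h' := uniq (hg1 (γ u) (hγ u) u ⟨hu, rfl, hbu⟩) (hg1 (γ v) (hγ v) v ⟨hv, rfl, hbv⟩)
          (Nat.add_left_cancel h)
        have h3 := hg2 (γ u) (hγ u) u ⟨hu, rfl, hbu⟩ v ⟨hv, h'.1.symm, hbv⟩ huv
        apply h3
        rw [h'.2, h'.1]
      · simp only [hbu, hbv, if_true, if_false]
        have := hgood v hv hbv
        omega
    · by_cases hbv : bad v
      · simp only [hbu, hbv, if_true, if_false]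
        have := hgood u hu hbu
        omega
      · simp only [hbu, hbv, if_false]
        intro h
        have h' := uniq (hf1 (t u) (ht u) u ⟨hu, rfl, hbu⟩) (hf1 (t v) (ht v) v ⟨hv, rfl, hbv⟩) h
        have h3 := hf2 (t u) (ht u) u ⟨hu, rfl, hbu⟩ v ⟨hv, h'.1.symm, hbv⟩ huv
        apply h3
        rw [h'.2, h'.1]

/-- `χ(G) ≤ (c + o(1)) Δ / log Δ` for all `F`-free graphs `G` of maximum degree `Δ` -/
def UpTo {W : Type} (F : SimpleGraph W) (c : ℝ) : Prop :=
  ∀ ε : ℝ, 0 < ε → ∃ Δ₀ : ℕ, ∀ Δ : ℕ, Δ₀ ≤ Δ →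
    ∀ (V : Type) [Fintype V] (G : SimpleGraph V) [DecidableRel G.Adj],
      F.Free G → G.maxDegree = Δ →
        ∃ n : ℕ, G.Colorable n ∧ (n : ℝ) ≤ (c + ε) * ((Δ : ℝ) / Real.log (Δ : ℝ))

/-- the same for sets of vertices in which the degrees are at most `y` -/
def GB {U : Type} (H : SimpleGraph U) (c : ℝ) : Prop :=
  ∀ ε : ℝ, 0 < ε → ∃ y₀ : ℝ, ∀ y : ℝ, y₀ ≤ y →
    ∀ (V : Type) [Fintype V] (G : SimpleGraph V) [DecidableRel G.Adj] (P : Set V),
      (∀ T : Set V, T ⊆ P → ¬ Cp H G T) →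
      (∀ v ∈ P, (((G.neighborFinset v).filter (fun u => u ∈ P)).card : ℝ) ≤ y) →
        ∃ n : ℕ, (n : ℝ) ≤ (c + ε) * (y / Real.log y) ∧ ColOn G P n

theorem mono_div_log {a b : ℝ} (ha : 3 ≤ a) (hab : a ≤ b) : a / Real.log a ≤ b / Real.log b := by
  have he : Real.exp 1 ≤ 3 := Real.exp_one_lt_three.le
  have h := Real.log_div_self_antitoneOn (show Real.exp 1 ≤ a by linarith)
    (show Real.exp 1 ≤ b by linarith) hab
  simp only at h
  have hla : 0 < Real.log a := Real.log_pos (by linarith)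
  have hlb : 0 < Real.log b := Real.log_pos (by linarith)
  rw [div_le_div_iff₀ (by linarith) (by linarith)] at h
  rw [div_le_div_iff₀ hla hlb]
  linarith

theorem big_div_log {y : ℝ} (hy : 1 < y) : Real.sqrt y / 2 ≤ y / Real.log y := by
  have hl : 0 < Real.log y := Real.log_pos hy
  have hs : 0 < Real.sqrt y := Real.sqrt_pos.2 (by linarith)
  have h1 : Real.log y ≤ 2 * Real.sqrt y := by
    have h2 : Real.log y = 2 * Real.log (Real.sqrt y) := by
      rw [Real.log_sqrt (by linarith)]; ring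
    have h3 := Real.log_le_sub_one_of_pos hs
    linarith
  rw [le_div_iff₀ hl]
  have h4 : Real.sqrt y * Real.sqrt y = y := Real.mul_self_sqrt (by linarith)
  nlinarith

theorem UpTo.gb {U : Type} {H : SimpleGraph U} {c : ℝ} (hc : 0 ≤ c) (h : UpTo H c) : GB H c := by
  intro ε hε
  obtain ⟨Δ₀, hΔ⟩ := h ε hε
  set M : ℕ := max Δ₀ 3 with hM
  set Q : ℝ := 2 * ((2 * M + 1 : ℕ) : ℝ) / ε with hQ
  refine ⟨max 3 (Q ^ 2), ?_⟩
  intro y hy V _ G _ P hP hdeg
  have hy3 : 3 ≤ y := le_trans (le_max_left _ _) hy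
  have hyQ : Q ^ 2 ≤ y := le_trans (le_max_right _ _) hy
  have hQ0 : 0 ≤ Q := by rw [hQ]; positivity
  set G' := G.induce P with hG'
  -- degrees in the induced graph
  have hdeg' : ∀ v : P, (G'.degree v : ℝ) ≤ y := by
    intro v
    refine le_trans ?_ (hdeg v.1 v.2)
    rw [← SimpleGraph.card_neighborFinset_eq_degree]
    have : ((G'.neighborFinset v).map (Function.Embedding.subtype _)) ⊆
        (G.neighborFinset v.1).filter (fun u => u ∈ P) := by
      intro u hu
      obtain ⟨w, hw, rfl⟩ := Finset.mem_map.1 hu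
      rw [Finset.mem_filter, SimpleGraph.mem_neighborFinset]
      rw [SimpleGraph.mem_neighborFinset] at hw
      exact ⟨by simpa [hG'] using hw, w.2⟩
    have h2 := Finset.card_le_card this
    rw [Finset.card_map] at h2
    exact_mod_cast h2
  by_cases hd : M ≤ G'.maxDegree
  · have hfree : H.Free G' := by
      rintro ⟨φ⟩
      refine hP (Set.range (fun a => ((φ.toHom a : P) : V))) ?_
        ⟨fun a => ((φ.toHom a : P) : V), ⟨?_, ?_⟩, rfl⟩
      · rintro _ ⟨a, rfl⟩
        exact (φ.toHom a).2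
      · intro a b hab
        exact φ.injective (Subtype.ext hab)
      · intro a b hab
        have := φ.toHom.map_adj hab
        simpa [hG'] using this
    obtain ⟨n, hn, hn2⟩ := hΔ G'.maxDegree ((le_max_left _ _).trans hd) P G' hfree rfl
    refine ⟨n, hn2.trans ?_, ?_⟩
    · refine mul_le_mul_of_nonneg_left ?_ (by linarith)
      have h3 : (3 : ℝ) ≤ G'.maxDegree := by exact_mod_cast (le_max_right _ _).trans hd
      refine mono_div_log h3 ?_
      have hne : Nonempty P := by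
        by_contra hemp
        rw [not_nonempty_iff] at hemp
        have : G'.maxDegree = 0 := by
          apply Nat.le_zero.1
          apply SimpleGraph.maxDegree_le_of_forall_degree_le
          intro v
          exact hemp.elim v
        rw [this] at h3
        norm_num at h3
      obtain ⟨v, hv⟩ := G'.exists_maximal_degree_vertex
      rw [hv]
      exact hdeg' v
    · obtain ⟨C⟩ := hn
      refine ⟨fun v => if hv : v ∈ P then (C ⟨v, hv⟩ : ℕ) else 0, ?_, ?_⟩
      · intro v hv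
        simp only [hv, dif_pos]
        exact (C ⟨v, hv⟩).2
      · intro u hu v hv huv
        simp only [hu, hv, dif_pos]
        intro h
        have h4 : G'.Adj ⟨u, hu⟩ ⟨v, hv⟩ := by simpa [hG'] using huv
        exact C.valid h4 (Fin.ext h)
  · push Not at hd
    obtain ⟨γ, hγ1, hγ2⟩ := degen (fun v : P => G'.neighborFinset v) M (fun v => by
        rw [SimpleGraph.card_neighborFinset_eq_degree]
        exact (G'.degree_le_maxDegree v).trans hd.le) (fun v => by simp) _ univ rfl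
    refine ⟨2 * M + 1, ?_, ?_⟩
    · have h5 : Q ≤ Real.sqrt y := Real.le_sqrt_of_sq_le hyQ
      have h6 := big_div_log (y := y) (by linarith)
      have h7 : ((2 * M + 1 : ℕ) : ℝ) = ε * (Q / 2) := by rw [hQ]; field_simp
      rw [h7]
      have h8 : Q / 2 ≤ y / Real.log y := by linarith
      calc ε * (Q / 2) ≤ ε * (y / Real.log y) := mul_le_mul_of_nonneg_left h8 hε.le
        _ ≤ (c + ε) * (y / Real.log y) := by
            refine mul_le_mul_of_nonneg_right (by linarith) ?_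
            linarith
    · refine ⟨fun v => if hv : v ∈ P then γ ⟨v, hv⟩ else 0, ?_, ?_⟩
      · intro v hv
        simp only [hv, dif_pos]
        exact hγ1 _
      · intro u hu v hv huv
        simp only [hu, hv, dif_pos]
        have h4 : G'.Adj ⟨u, hu⟩ ⟨v, hv⟩ := by simpa [hG'] using huv
        exact hγ2 _ (Finset.mem_univ _) _ (Finset.mem_univ _) (by
          rw [SimpleGraph.mem_neighborFinset]; exact h4)

theorem asy_log {a τ : ℝ} (ha : 0 < a) (hτ : 0 < τ) :
    ∀ᶠ x : ℝ in atTop, a * x / Real.log (a * x) ≤ (1 + τ) * a * (x / Real.log x) := by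
  have h1 : ∀ᶠ x : ℝ in atTop, -Real.log a * (1 + τ) / τ + 1 ≤ Real.log x :=
    Real.tendsto_log_atTop.eventually_ge_atTop _
  have h2 : ∀ᶠ x : ℝ in atTop, 1 ≤ Real.log x := Real.tendsto_log_atTop.eventually_ge_atTop _
  filter_upwards [h1, h2, eventually_gt_atTop 0] with x hx1 hx2 hx0
  have hlog : Real.log (a * x) = Real.log a + Real.log x := Real.log_mul ha.ne' hx0.ne'
  have h3 : -Real.log a * (1 + τ) < τ * Real.log x := by
    have h4 : -Real.log a * (1 + τ) / τ < Real.log x := by linarith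
    rw [div_lt_iff₀ hτ] at h4
    linarith
  have h5 : Real.log x / (1 + τ) < Real.log (a * x) := by
    rw [div_lt_iff₀ (by linarith), hlog]
    nlinarith
  have h6 : 0 < Real.log x / (1 + τ) := div_pos (by linarith) (by linarith)
  calc a * x / Real.log (a * x) ≤ a * x / (Real.log x / (1 + τ)) :=
        div_le_div_of_nonneg_left (by positivity) h6 h5.le
    _ = (1 + τ) * a * (x / Real.log x) := by
        have : Real.log x ≠ 0 := by linarith
        field_simp

theorem asy_exp {α κ : ℝ} (hα : 0 < α) (hκ : 0 < κ) (N : ℕ) :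
    ∀ᶠ x : ℝ in atTop, Real.exp (-(α * x)) * (x + 1) ^ N ≤ κ := by
  have h := (isLittleO_pow_exp_pos_mul_atTop (k := N) hα).def
    (show 0 < κ * Real.exp (-α) by positivity)
  have h1 : Tendsto (fun x : ℝ => x + 1) atTop atTop := tendsto_atTop_add_const_right _ _ tendsto_id
  filter_upwards [h1.eventually h, eventually_ge_atTop 0] with x hx hx0
  rw [Real.norm_of_nonneg (by positivity), Real.norm_of_nonneg (by positivity)] at hx
  calc Real.exp (-(α * x)) * (x + 1) ^ N
      ≤ Real.exp (-(α * x)) * (κ * Real.exp (-α) * Real.exp (α * (x + 1))) :=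
        mul_le_mul_of_nonneg_left hx (Real.exp_pos _).le
    _ = κ * Real.exp (-(α * x) + -α + α * (x + 1)) := by
        rw [Real.exp_add, Real.exp_add]; ring
    _ = κ := by
        have : -(α * x) + -α + α * (x + 1) = 0 := by ring
        rw [this, Real.exp_zero, mul_one]

theorem filt_le {V : Type} (A : Finset V) (P : Set V) (Q : V → Prop) [DecidablePred Q]
    (h : ∀ u ∈ A, u ∈ P → Q u) :
    (A.filter (fun u => u ∈ P)).card ≤ (A.filter Q).card := by
  refine Finset.card_le_card ?_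
  intro u hu
  rw [Finset.mem_filter] at hu ⊢
  exact ⟨hu.1, h u hu.1 hu.2⟩

/-- Colouring a set `B` all of whose copies of `H` contain a vertex `u` and a vertex of `S u`. -/
theorem colour {U : Type} (H : SimpleGraph U) {c : ℝ} (hc : 0 ≤ c) (hGB : GB H c) (s h : ℕ) :
    ∀ ε : ℝ, 0 < ε → ∃ D₀ : ℕ, ∀ D : ℕ, D₀ ≤ D →
      ∀ (V : Type) [Fintype V] (G : SimpleGraph V) [DecidableRel G.Adj] (B : Set V)
        (S : V → Finset V), (∀ v, G.degree v ≤ D) → (∀ v, (S v).card ≤ s) → (∀ v, v ∉ S v) →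
        (∀ v, ∀ w ∈ S v, Near G h v w) →
        (∀ T : Set V, T ⊆ B → Cp H G T → ∃ u ∈ T, ∃ w ∈ T, w ∈ S u) →
        ∃ n : ℕ, (n : ℝ) ≤ (c + ε) * ((D : ℝ) / Real.log D) ∧ ColOn G B n := by
  intro ε hε
  set δ : ℝ := min 1 (ε / (6 + 5 * c)) with hδ
  have hδ1 : δ ≤ 1 := min_le_left _ _
  have hδε : δ ≤ ε / (6 + 5 * c) := min_le_right _ _
  have hδ0 : 0 < δ := lt_min one_pos (by positivity)
  have hδc : (c + δ) * ((1 + δ) * (1 + 2 * δ)) ≤ c + ε := by
    have h1 : δ * (6 + 5 * c) ≤ ε := by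
      rwa [le_div_iff₀ (by positivity)] at hδε
    have h2 : (1 + δ) * (1 + 2 * δ) ≤ 1 + 5 * δ := by nlinarith
    calc (c + δ) * ((1 + δ) * (1 + 2 * δ)) ≤ (c + δ) * (1 + 5 * δ) :=
          mul_le_mul_of_nonneg_left h2 (by linarith)
      _ ≤ c + ε := by nlinarith [mul_nonneg hc hδ0.le, mul_nonneg hδ0.le hδ0.le]
  set m : ℕ := 2 * s + 1 with hm
  have hmpos : (0 : ℝ) < m := by rw [hm]; positivity
  set η : ℝ := δ / m with hη
  have hη0 : 0 < η := div_pos hδ0 hmpos
  set K : ℕ := ⌈4 * s / η⌉₊ + 1 with hK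
  have hK1 : 1 ≤ K := by rw [hK]; omega
  have hKpos : (0 : ℝ) < K := by exact_mod_cast hK1
  have hKs : 4 * (s : ℝ) / η ≤ K := by
    rw [hK]; push_cast
    have := Nat.le_ceil (4 * (s : ℝ) / η)
    linarith
  have hKs' : 2 * (s : ℝ) / K ≤ η / 2 := by
    rw [div_le_iff₀ hη0] at hKs
    rw [div_le_iff₀ hKpos]
    linarith
  obtain ⟨y₀, hy₀⟩ := hGB δ hδ0
  set a1 : ℝ := (1 + δ) / K with ha1
  have ha10 : 0 < a1 := by rw [ha1]; positivity
  -- eventual inequalities
  have E1 := asy_log ha10 hδ0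
  have E2 := asy_log hη0 hδ0
  have E3 : ∀ᶠ x : ℝ in atTop, Real.exp (-(δ ^ 2 / (3 * K) * x)) * (x + 1) ^ (2 * (h + 1)) ≤
      1 / (8 * K) := asy_exp (by positivity) (by positivity) _
  have E4 : ∀ᶠ x : ℝ in atTop, Real.exp (-(η / 2 * x)) * (x + 1) ^ (2 * (h + 1)) ≤
      1 / (8 * m) := asy_exp (by positivity) (by positivity) _
  have E5 : ∀ᶠ x : ℝ in atTop, y₀ ≤ a1 * x :=
    (tendsto_id.const_mul_atTop ha10).eventually_ge_atTop _
  have E6 : ∀ᶠ x : ℝ in atTop, y₀ ≤ η * x :=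
    (tendsto_id.const_mul_atTop hη0).eventually_ge_atTop _
  have E := ((((E1.and E2).and E3).and E4).and E5).and E6
  obtain ⟨D₀, hD₀⟩ := eventually_atTop.1 (tendsto_natCast_atTop_atTop.eventually E)
  refine ⟨D₀, ?_⟩
  intro D hD V _ G _ B S hdeg hs hSv hloc hhit
  obtain ⟨⟨⟨⟨⟨e1, e2⟩, e3⟩, e4⟩, e5⟩, e6⟩ := hD₀ D hD
  obtain ⟨γ, hγ1, hγ2⟩ := degen S s hs hSv _ univ rfl
  set m0 : ℕ := ⌊η * D⌋₊ + 1 with hm0
  have hm0' : η * D ≤ m0 := by
    rw [hm0]; push_cast; exact (Nat.lt_floor_add_one _).le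
  have hLLL : 4 * (K * Real.exp (-(δ ^ 2 * D / (3 * K))) + m * Real.exp (2 * s * D / K - m0)) *
      ((D + 1) ^ (2 * (h + 1)) : ℕ) ≤ 1 := by
    push_cast
    have i1 : Real.exp (2 * s * D / K - m0) ≤ Real.exp (-(η / 2 * D)) := by
      apply Real.exp_le_exp.2
      have i2 : 2 * (s : ℝ) * D / K ≤ η / 2 * D := by
        have : 2 * (s : ℝ) * D / K = (2 * s / K) * D := by ring
        rw [this]
        exact mul_le_mul_of_nonneg_right hKs' (by positivity)
      linarith
    have i3 : Real.exp (-(δ ^ 2 * D / (3 * K))) = Real.exp (-(δ ^ 2 / (3 * K) * D)) := by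
      congr 1; ring
    rw [i3]
    set X : ℝ := ((D : ℝ) + 1) ^ (2 * (h + 1)) with hX
    have hX0 : 0 ≤ X := by positivity
    have i4 : Real.exp (2 * s * D / K - m0) * X ≤ 1 / (8 * m) :=
      (mul_le_mul_of_nonneg_right i1 hX0).trans e4
    have i5 : K * (Real.exp (-(δ ^ 2 / (3 * K) * D)) * X) ≤ 1 / 8 := by
      calc K * (Real.exp (-(δ ^ 2 / (3 * K) * D)) * X) ≤ K * (1 / (8 * K)) :=
            mul_le_mul_of_nonneg_left e3 hKpos.le
        _ = 1 / 8 := by field_simp
    have i6 : m * (Real.exp (2 * s * D / K - m0) * X) ≤ 1 / 8 := by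
      calc m * (Real.exp (2 * s * D / K - m0) * X) ≤ m * (1 / (8 * m)) :=
            mul_le_mul_of_nonneg_left i4 hmpos.le
        _ = 1 / 8 := by field_simp
    calc 4 * (K * Real.exp (-(δ ^ 2 / (3 * K) * D)) + m * Real.exp (2 * s * D / K - m0)) * X
        = 4 * (K * (Real.exp (-(δ ^ 2 / (3 * K) * D)) * X) +
            m * (Real.exp (2 * s * D / K - m0) * X)) := by ring
      _ ≤ 1 := by linarith
  obtain ⟨t, ht1, ht2, ht3⟩ := exists_types G K D s h m m0 hK1 hdeg S hs hloc γ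
    (fun u w hw => hγ2 u (Finset.mem_univ _) w (Finset.mem_univ _) hw) δ hδ0.le hδ1 hLLL
  -- colour the parts
  have hpart1 : ∃ n1 : ℕ, (n1 : ℝ) ≤ (c + δ) * (a1 * D / Real.log (a1 * D)) ∧
      ∀ y < K, ColOn G {v | v ∈ B ∧ t v = y ∧ ¬ ∃ w ∈ S v, t w = t v} n1 := by
    have hex : ∀ y, ∃ n : ℕ, (n : ℝ) ≤ (c + δ) * (a1 * D / Real.log (a1 * D)) ∧
        ColOn G {v | v ∈ B ∧ t v = y ∧ ¬ ∃ w ∈ S v, t w = t v} n := by
      intro y
      refine hy₀ (a1 * D) e5 V G _ ?_ ?_
      · intro T hT hTC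
        obtain ⟨u, hu, w, hw, hwu⟩ := hhit T (fun v hv => (hT hv).1) hTC
        have a1 := hT hu
        have a2 := hT hw
        exact a1.2.2 ⟨w, hwu, a2.2.1.trans a1.2.1.symm⟩
      · intro v _
        have a2 : ((⌊(1 + δ) * D / K⌋₊ : ℕ) : ℝ) ≤ (1 + δ) / K * D := by
          refine (Nat.floor_le (by positivity)).trans (le_of_eq ?_)
          ring
        have a1 := filt_le (G.neighborFinset v) {v | v ∈ B ∧ t v = y ∧
            ¬ ∃ w ∈ S v, t w = t v} (fun u => t u = y) (fun u _ hu => hu.2.1)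
        have a3 := (Nat.cast_le (α := ℝ).2 (a1.trans (ht2 v y))).trans a2
        rw [ha1]
        exact a3
    choose nn hnn1 hnn2 using hex
    refine ⟨(Finset.range K).sup nn, ?_, ?_⟩
    · obtain ⟨y, -, hy⟩ := Finset.exists_mem_eq_sup (Finset.range K)
        ⟨0, Finset.mem_range.2 hK1⟩ nn
      rw [hy]; exact hnn1 y
    · intro y hy
      obtain ⟨f, hf1, hf2⟩ := hnn2 y
      exact ⟨f, fun v hv => lt_of_lt_of_le (hf1 v hv)
        (Finset.le_sup (f := nn) (Finset.mem_range.2 hy)), hf2⟩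
  have hpart2 : ∃ n2 : ℕ, (n2 : ℝ) ≤ (c + δ) * (η * D / Real.log (η * D)) ∧
      ∀ l < m, ColOn G {v | v ∈ B ∧ γ v = l ∧ ∃ w ∈ S v, t w = t v} n2 := by
    have hex : ∀ l, ∃ n : ℕ, l < m → (n : ℝ) ≤ (c + δ) * (η * D / Real.log (η * D)) ∧
        ColOn G {v | v ∈ B ∧ γ v = l ∧ ∃ w ∈ S v, t w = t v} n := by
      intro l
      by_cases hl : l < m
      · obtain ⟨n, hn⟩ := hy₀ (η * D) e6 V G {v | v ∈ B ∧ γ v = l ∧ ∃ w ∈ S v, t w = t v}
          (by
            intro T hT hTC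
            obtain ⟨u, hu, w, hw, hwu⟩ := hhit T (fun v hv => (hT hv).1) hTC
            have a1 := hT hu
            have a2 := hT hw
            exact hγ2 u (Finset.mem_univ _) w (Finset.mem_univ _) hwu
              (a1.2.1.trans a2.2.1.symm))
          (by
            intro v _
            have a2 := ht3 v l hl
            have a1 := filt_le (G.neighborFinset v) {v | v ∈ B ∧ γ v = l ∧
                ∃ w ∈ S v, t w = t v} (fun u => γ u = l ∧ ∃ w ∈ S u, t w = t u)
                (fun u _ hu => hu.2)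
            have a4 : ((m0 - 1 : ℕ) : ℝ) ≤ η * D := by
              rw [hm0, Nat.add_sub_cancel]
              exact Nat.floor_le (by positivity)
            exact (Nat.cast_le (α := ℝ).2 (by omega)).trans a4)
        exact ⟨n, fun _ => hn⟩
      · exact ⟨0, fun h => absurd h hl⟩
    choose nn hnn using hex
    refine ⟨(Finset.range m).sup nn, ?_, ?_⟩
    · obtain ⟨l, hl, hy⟩ := Finset.exists_mem_eq_sup (Finset.range m)
        ⟨0, Finset.mem_range.2 (by omega)⟩ nn
      rw [hy]; exact (hnn l (Finset.mem_range.1 hl)).1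
    · intro l hl
      obtain ⟨f, hf1, hf2⟩ := (hnn l hl).2
      exact ⟨f, fun v hv => lt_of_lt_of_le (hf1 v hv)
        (Finset.le_sup (f := nn) (Finset.mem_range.2 hl)), hf2⟩
  obtain ⟨n1, hn1, hc1⟩ := hpart1
  obtain ⟨n2, hn2, hc2⟩ := hpart2
  refine ⟨K * n1 + m * n2, ?_, assemble G B t γ K m n1 n2 (fun v => ∃ w ∈ S v, t w = t v) ht1
    (fun v => hγ1 v) hc1 hc2⟩
  push_cast
  have hcδ : 0 ≤ c + δ := by linarith
  have f1 : (K : ℝ) * n1 ≤ (c + δ) * ((1 + δ) * (1 + δ)) * ((D : ℝ) / Real.log D) := by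
    calc (K : ℝ) * n1 ≤ K * ((c + δ) * (a1 * D / Real.log (a1 * D))) :=
          mul_le_mul_of_nonneg_left hn1 hKpos.le
      _ ≤ K * ((c + δ) * ((1 + δ) * a1 * (D / Real.log D))) := by gcongr
      _ = (c + δ) * ((1 + δ) * (K * a1)) * ((D : ℝ) / Real.log D) := by ring
      _ = _ := by
          have : (K : ℝ) * a1 = 1 + δ := by rw [ha1]; field_simp
          rw [this]
  have f2 : (m : ℝ) * n2 ≤ (c + δ) * ((1 + δ) * δ) * ((D : ℝ) / Real.log D) := by
    calc (m : ℝ) * n2 ≤ m * ((c + δ) * (η * D / Real.log (η * D))) :=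
          mul_le_mul_of_nonneg_left hn2 hmpos.le
      _ ≤ m * ((c + δ) * ((1 + δ) * η * (D / Real.log D))) := by gcongr
      _ = (c + δ) * ((1 + δ) * (m * η)) * ((D : ℝ) / Real.log D) := by ring
      _ = _ := by
          have : (m : ℝ) * η = δ := by rw [hη]; field_simp
          rw [this]
  have hDlog : 0 ≤ (D : ℝ) / Real.log D := div_nonneg (by positivity) (Real.log_natCast_nonneg _)
  calc (K : ℝ) * n1 + m * n2 ≤ (c + δ) * ((1 + δ) * (1 + δ)) * ((D : ℝ) / Real.log D) +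
        (c + δ) * ((1 + δ) * δ) * ((D : ℝ) / Real.log D) := add_le_add f1 f2
    _ = ((c + δ) * ((1 + δ) * (1 + 2 * δ))) * ((D : ℝ) / Real.log D) := by ring
    _ ≤ (c + ε) * ((D : ℝ) / Real.log D) := mul_le_mul_of_nonneg_right hδc hDlog

end Pool.Agent.Helper311.Glue
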