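import Mathlib
import Pool.Agent.Helper311.Glue.Asym

set_option autoImplicit false

/-!
# Gluing theorems for the constants `c(F)`
-/

namespace Pool.Agent.Helper311.Glue

open Finset Filter Classical

theorem tendsto_div_log : Tendsto (fun D : ℕ => (D : ℝ) / Real.log D) atTop atTop := by
  have h1 : Tendsto (fun D : ℕ => Real.sqrt (D : ℝ) / 2) atTop atTop :=
    (Real.tendsto_sqrt_atTop.comp tendsto_natCast_atTop_atTop).atTop_div_const two_pos
  refine tendsto_atTop_mono' _ ?_ h1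
  filter_upwards [eventually_ge_atTop 2] with D hD
  exact big_div_log (by exact_mod_cast (show 1 < D by omega))

/-- a copy of a connected graph has small diameter -/
theorem near_of_cp {U V : Type} [Fintype U] (H : SimpleGraph U) (hH : H.Connected)
    (G : SimpleGraph V) (T : Set V) (hT : Cp H G T) (u w : V) (hu : u ∈ T) (hw : w ∈ T) :
    Near G (Fintype.card U) u w := by
  obtain ⟨φ, hφ, hφT⟩ := hT
  rw [← hφT] at hu hw
  obtain ⟨a, rfl⟩ := hu
  obtain ⟨a', rfl⟩ := hw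
  obtain ⟨p, hp⟩ := (hH.preconnected a a').exists_isPath
  let Φ : H →g G := ⟨φ, fun h => hφ.2 _ _ h⟩
  refine ⟨p.map Φ, ?_⟩
  rw [SimpleGraph.Walk.length_map]
  exact hp.length_lt.le

/-- the final colouring: a residual set `R` and classes with hitting sets -/
theorem final {ι W₀ : Type} [Fintype ι] {U : ι → Type} (H : ∀ i, SimpleGraph (U i))
    (c : ι → ℝ) (hc : ∀ i, 0 ≤ c i) (hGB : ∀ i, GB (H i) (c i))
    (F₀ : SimpleGraph W₀) (c₀ : ℝ) (hc₀ : 0 ≤ c₀) (hGB₀ : GB F₀ c₀) (n h : ℕ) :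
    ∀ ε : ℝ, 0 < ε → ∃ D₀ : ℕ, ∀ D : ℕ, D₀ ≤ D →
      ∀ (V : Type) [Fintype V] (G : SimpleGraph V) [DecidableRel G.Adj] (R : Finset V)
        (τ : V → ι) (S : V → Finset V), (∀ v, G.degree v ≤ D) → (∀ v, (S v).card ≤ n) →
        (∀ v, v ∉ S v) →
        (∀ i (T : Set V), Cp (H i) G T → (∀ u ∈ T, u ∉ R ∧ τ u = i) →
          ∃ u ∈ T, ∃ w ∈ T, w ∈ S u ∧ Near G h u w) →
        (R.card ≤ n ∨ ∀ T : Set V, T ⊆ R → ¬ Cp F₀ G T) →
        ∃ N : ℕ, (N : ℝ) ≤ (c₀ + ∑ i, c i + ε) * ((D : ℝ) / Real.log D) ∧ G.Colorable N := by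
  intro ε hε
  set k : ℕ := Fintype.card ι with hk
  set ε' : ℝ := ε / (k + 1) with hε'
  have hε'0 : 0 < ε' := by positivity
  have hcol := fun i => colour (H i) (hc i) (hGB i) n h ε' hε'0
  choose D₁ hD₁ using hcol
  obtain ⟨y₀, hy₀⟩ := hGB₀ ε' hε'0
  have E1 : ∀ᶠ D : ℕ in atTop, (n : ℝ) / ε' ≤ (D : ℝ) / Real.log D :=
    tendsto_div_log.eventually_ge_atTop _
  have E2 : ∀ᶠ D : ℕ in atTop, y₀ ≤ (D : ℝ) := tendsto_natCast_atTop_atTop.eventually_ge_atTop _
  obtain ⟨D₂, hD₂⟩ := eventually_atTop.1 (E1.and E2)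
  refine ⟨max D₂ (univ.sup D₁), ?_⟩
  intro D hD V _ G _ R τ S hdeg hS hSv hhit hR
  obtain ⟨e1, e2⟩ := hD₂ D ((le_max_left _ _).trans hD)
  have hDi : ∀ i, D₁ i ≤ D := fun i =>
    (Finset.le_sup (f := D₁) (Finset.mem_univ i)).trans ((le_max_right _ _).trans hD)
  have hDlog : 0 ≤ (D : ℝ) / Real.log D := div_nonneg (by positivity) (Real.log_natCast_nonneg _)
  -- the residual set
  have hRes : ∃ N₀ : ℕ, (N₀ : ℝ) ≤ (c₀ + ε') * ((D : ℝ) / Real.log D) ∧ ColOn G (R : Set V) N₀ := by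
    rcases hR with hR | hR
    · refine ⟨n, ?_, ?_⟩
      · rw [div_le_iff₀ hε'0] at e1
        nlinarith [mul_nonneg hc₀ hDlog]
      · obtain ⟨e⟩ : Nonempty (R ↪ Fin n) := by
          rw [Function.Embedding.nonempty_iff_card_le]
          simpa using hR
        refine ⟨fun v => if hv : v ∈ R then (e ⟨v, hv⟩ : ℕ) else 0, ?_, ?_⟩
        · intro v hv
          have hv' : v ∈ R := hv
          simp only [hv', dif_pos]
          exact (e _).2
        · intro u hu v hv huv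
          have hu' : u ∈ R := hu
          have hv' : v ∈ R := hv
          simp only [hu', hv', dif_pos]
          intro h
          have h1 := e.injective (Fin.ext h)
          have h2 : u = v := by simpa using h1
          exact huv.ne h2
    · have key : ∀ (P : Set V) (v : V),
          (((G.neighborFinset v).filter (fun u => u ∈ P)).card : ℝ) ≤ D := by
        intro P v
        refine Nat.cast_le.2 ((Finset.card_filter_le _ _).trans ?_)
        rw [SimpleGraph.card_neighborFinset_eq_degree]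
        exact hdeg v
      exact hy₀ D e2 V G R hR (fun v _ => key R v)
  have hcls : ∀ i, ∃ N : ℕ, (N : ℝ) ≤ (c i + ε') * ((D : ℝ) / Real.log D) ∧
      ColOn G {v | v ∉ R ∧ τ v = i} N := by
    intro i
    refine hD₁ i D (hDi i) V G {v | v ∉ R ∧ τ v = i} (fun v => (S v).filter (fun w => Near G h v w))
      hdeg (fun v => (Finset.card_filter_le _ _).trans (hS v))
      (fun v hv => hSv v (Finset.mem_filter.1 hv).1) (fun v w hw => (Finset.mem_filter.1 hw).2) ?_
    intro T hT hTC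
    obtain ⟨u, hu, w, hw, hwu, hnear⟩ := hhit i T hTC (fun u hu => hT hu)
    exact ⟨u, hu, w, hw, Finset.mem_filter.2 ⟨hwu, hnear⟩⟩
  obtain ⟨N₀, hN₀, f₀, hf₀1, hf₀2⟩ := hRes
  choose N hN f hf1 hf2 using hcls
  refine ⟨N₀ + ∑ i, N i, ?_, ?_⟩
  · push_cast
    have h1 : ∑ i, (N i : ℝ) ≤ ∑ i, (c i + ε') * ((D : ℝ) / Real.log D) :=
      Finset.sum_le_sum (fun i _ => hN i)
    rw [← Finset.sum_mul, Finset.sum_add_distrib, Finset.sum_const, Finset.card_univ,
      nsmul_eq_mul] at h1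
    calc (N₀ : ℝ) + ∑ i, (N i : ℝ) ≤ (c₀ + ε') * ((D : ℝ) / Real.log D) +
          (∑ i, c i + Fintype.card ι * ε') * ((D : ℝ) / Real.log D) := add_le_add hN₀ h1
      _ = (c₀ + ∑ i, c i + ε' * (k + 1)) * ((D : ℝ) / Real.log D) := by rw [hk]; ring
      _ = (c₀ + ∑ i, c i + ε) * ((D : ℝ) / Real.log D) := by
          have : ε' * ((k : ℝ) + 1) = ε := by rw [hε']; field_simp
          rw [this]
  · have hcolor : ∃ g : V → (Fin N₀ ⊕ (Σ i, Fin (N i))), ∀ u v, G.Adj u v → g u ≠ g v := by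
      have hR0 : ∀ v, v ∈ R → f₀ v < N₀ := fun v hv => hf₀1 v hv
      refine ⟨fun v => if hv : v ∈ R then Sum.inl ⟨f₀ v, hR0 v hv⟩ else
        Sum.inr ⟨τ v, ⟨f (τ v) v, hf1 (τ v) v ⟨hv, rfl⟩⟩⟩, ?_⟩
      intro u v huv
      by_cases hu : u ∈ R
      · by_cases hv : v ∈ R
        · simp only [hu, hv, dif_pos]
          intro h
          have h1 := Fin.mk.inj_iff.1 (Sum.inl.inj h)
          exact hf₀2 u hu v hv huv h1
        · simp [hu, hv]
      · by_cases hv : v ∈ R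
        · simp [hu, hv]
        · simp only [hu, hv, dif_neg, not_false_eq_true]
          intro h
          have h1 := Sum.inr.inj h
          have hτ : τ u = τ v := congrArg Sigma.fst h1
          have h2 : f (τ u) u = f (τ v) v := by
            have := congrArg (fun z : Σ i, Fin (N i) => (z.2 : ℕ)) h1
            simpa using this
          exact hf2 (τ u) u ⟨hu, rfl⟩ v ⟨hv, hτ.symm⟩ huv (by rw [h2, hτ])
    obtain ⟨g, hg⟩ := hcolor
    have hcard : Fintype.card (Fin N₀ ⊕ (Σ i, Fin (N i))) = N₀ + ∑ i, N i := by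
      simp
    rw [← hcard]
    exact SimpleGraph.Coloring.colorable (SimpleGraph.Coloring.mk g (fun {u v} h => hg u v h))

theorem free_core {W V : Type} [Fintype W] (F : SimpleGraph W) (G : SimpleGraph V)
    (C : Finset W) (T : Set V) (hT : Cp (F.induce (C : Set W)) G T) (v0 : V) :
    ∃ f : W → V, (∀ x ∈ C, f x ∈ T) ∧ (∀ x ∈ C, ∀ y ∈ C, f x = f y → x = y) ∧
      ∀ x ∈ C, ∀ y ∈ C, F.Adj x y → G.Adj (f x) (f y) := by
  obtain ⟨φ, hφ, hφT⟩ := hT
  refine ⟨fun x => if hx : x ∈ C then φ ⟨x, hx⟩ else v0, ?_, ?_, ?_⟩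
  · intro x hx
    simp only [hx, dif_pos]
    rw [← hφT]
    exact ⟨_, rfl⟩
  · intro x hx y hy hxy
    simp only [hx, hy, dif_pos] at hxy
    have := hφ.1 hxy
    simpa using this
  · intro x hx y hy hxy
    simp only [hx, hy, dif_pos]
    exact hφ.2 _ _ (by simpa using hxy)

theorem cp_nonempty {U V : Type} [Nonempty U] {H : SimpleGraph U} {G : SimpleGraph V}
    {T : Set V} (h : Cp H G T) : T.Nonempty := by
  obtain ⟨φ, -, hφT⟩ := h
  obtain ⟨a⟩ := ‹Nonempty U›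
  exact ⟨φ a, by rw [← hφT]; exact ⟨a, rfl⟩⟩

/-- **cacti**: pieces from connected vertex-transitive graphs `H i` on an arbitrary core -/
theorem cactus {W ι : Type} [Fintype W] [Fintype ι] [Nonempty ι] (F : SimpleGraph W)
    {U : ι → Type} [∀ i, Fintype (U i)] (H : ∀ i, SimpleGraph (U i))
    (hconn : ∀ i, (H i).Connected)
    (htr : ∀ i (a b : U i), ∃ α : H i ≃g H i, α a = b) (hU : ∀ i, 1 < Fintype.card (U i))
    (C : Finset W) (hF : Built F H C univ)
    (c : ι → ℝ) (hc : ∀ i, 0 ≤ c i) (hGB : ∀ i, UpTo (H i) (c i))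
    (c₀ : ℝ) (hc₀ : 0 ≤ c₀) (hGB₀ : UpTo (F.induce (C : Set W)) c₀) :
    UpTo F (c₀ + ∑ i, c i) := by
  intro ε hε
  obtain ⟨D₀, hD₀⟩ := final H c hc (fun i => (hGB i).gb (hc i)) (F.induce (C : Set W)) c₀ hc₀
    (hGB₀.gb hc₀) (Fintype.card W) (∑ i, Fintype.card (U i)) ε hε
  refine ⟨D₀, ?_⟩
  intro D hD V _ G _ hfree hmax
  obtain ⟨i0⟩ := ‹Nonempty ι›
  obtain ⟨R, τ, S, -, hR, hS1, hS2, hS3⟩ := hit (fun i (T : Set V) => Cp (H i) G T)
    (Fintype.card W) i0 _ univ rfl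
  have hne : ∀ i, Nonempty (U i) := fun i => Fintype.card_pos_iff.1 (by have := hU i; omega)
  obtain ⟨N, hN1, hN2⟩ := hD₀ D hD V G R τ S
    (fun v => by rw [← hmax]; exact G.degree_le_maxDegree v) hS1 hS2 (by
      intro i T hT hTτ
      have := hne i
      obtain ⟨u, hu, w, hw, hwu⟩ := hS3 i T (cp_nonempty hT) hT (by simp) hTτ
      refine ⟨u, hu, w, hw, hwu, ?_⟩
      obtain ⟨p, hp⟩ := near_of_cp (H i) (hconn i) G T hT u w hu hw
      exact ⟨p, hp.trans (Finset.single_le_sum (f := fun i => Fintype.card (U i))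
        (fun _ _ => Nat.zero_le _) (Finset.mem_univ i))⟩)
    (by
      rcases R.eq_empty_or_nonempty with hRe | hRne
      · left; rw [hRe]; simp
      · right
        intro T hT hTC
        obtain ⟨v0, hv0⟩ := hRne
        obtain ⟨f0, h1, h2, h3⟩ := free_core F G C T hTC v0
        obtain ⟨f, -, g2, g3⟩ := embed F H G htr hU R ⟨v0, hv0⟩ hR C f0
          (fun x hx => hT (h1 x hx)) h2 h3 univ hF
        refine hfree ⟨⟨⟨f, fun {a b} h => g3 a (Finset.mem_univ _) b (Finset.mem_univ _) h⟩, ?_⟩⟩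
        intro a b hab
        exact g2 a (Finset.mem_univ _) b (Finset.mem_univ _) hab)
  exact ⟨N, hN2, hN1⟩

/-- **rooted pieces**: copies of connected rooted graphs `(H i, b i)` attached at vertices of an
arbitrary core -/
theorem rooted {W ι : Type} [Fintype W] [Fintype ι] [Nonempty ι] (F : SimpleGraph W)
    {U : ι → Type} [∀ i, Fintype (U i)] (H : ∀ i, SimpleGraph (U i))
    (hconn : ∀ i, (H i).Connected) (b : ∀ i, U i)
    (C : Finset W) (hF : Attached F H b C univ)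
    (c : ι → ℝ) (hc : ∀ i, 0 ≤ c i) (hGB : ∀ i, UpTo (H i) (c i))
    (c₀ : ℝ) (hc₀ : 0 ≤ c₀) (hGB₀ : UpTo (F.induce (C : Set W)) c₀) :
    UpTo F (c₀ + ∑ i, c i) := by
  intro ε hε
  obtain ⟨D₀, hD₀⟩ := final H c hc (fun i => (hGB i).gb (hc i)) (F.induce (C : Set W)) c₀ hc₀
    (hGB₀.gb hc₀) (Fintype.card W) (∑ i, Fintype.card (U i)) ε hε
  refine ⟨D₀, ?_⟩
  intro D hD V _ G _ hfree hmax
  obtain ⟨i0⟩ := ‹Nonempty ι›
  -- rich vertices
  set rich : V → Prop := fun v => ∀ i, ∀ Z : Finset V, Z.card ≤ Fintype.card W → v ∉ Z →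
      ∃ φ : U i → V, Emb (H i) G φ ∧ φ (b i) = v ∧ ∀ a, φ a ∉ Z with hrich
  set R : Finset V := univ.filter rich with hR
  have hpoor : ∀ v, ∃ (i : ι) (Z : Finset V), Z.card ≤ Fintype.card W ∧ v ∉ Z ∧
      (v ∉ R → ∀ j, i = j → ∀ φ : U j → V, Emb (H j) G φ → φ (b j) = v → ∃ a, φ a ∈ Z) := by
    intro v
    by_cases hv : v ∈ R
    · exact ⟨i0, ∅, by simp, by simp, fun h => absurd hv h⟩
    · have hv' : ¬ rich v := fun h => hv (Finset.mem_filter.2 ⟨Finset.mem_univ _, h⟩)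
      rw [hrich] at hv'
      push Not at hv'
      obtain ⟨i, Z, h1, h2, h3⟩ := hv'
      refine ⟨i, Z, h1, h2, ?_⟩
      rintro - j rfl φ hφ hφb
      exact h3 φ hφ hφb
  choose τ S hS1 hS2 hS3 using hpoor
  obtain ⟨N, hN1, hN2⟩ := hD₀ D hD V G R τ S
    (fun v => by rw [← hmax]; exact G.degree_le_maxDegree v) hS1 hS2 (by
      intro i T hT hTτ
      obtain ⟨φ, hφ, hφT⟩ := hT
      have hmem : ∀ a, φ a ∈ T := fun a => by rw [← hφT]; exact ⟨a, rfl⟩
      obtain ⟨hbR, hbτ⟩ := hTτ _ (hmem (b i))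
      obtain ⟨a, ha⟩ := hS3 (φ (b i)) hbR i hbτ φ hφ rfl
      refine ⟨φ (b _), hmem _, φ a, hmem a, ha, ?_⟩
      obtain ⟨p, hp⟩ := near_of_cp (H i) (hconn i) G T ⟨φ, hφ, hφT⟩ _ _ (hmem (b i)) (hmem a)
      exact ⟨p, hp.trans (Finset.single_le_sum (f := fun i => Fintype.card (U i))
        (fun _ _ => Nat.zero_le _) (Finset.mem_univ _))⟩)
    (by
      rcases Nat.lt_or_ge (Fintype.card W) R.card with hRc | hRc
      · right
        intro T hT hTC
        obtain ⟨v0, hv0⟩ := Finset.card_pos.1 (show 0 < R.card by omega)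
        obtain ⟨f0, h1, h2, h3⟩ := free_core F G C T hTC v0
        obtain ⟨-, f, -, g2, g3⟩ := attach F H b G R hRc
          (fun v hv => (Finset.mem_filter.1 hv).2) C f0
          (fun x hx => hT (h1 x hx)) h2 h3 univ hF
        refine hfree ⟨⟨⟨f, fun {a b} h => g3 a (Finset.mem_univ _) b (Finset.mem_univ _) h⟩, ?_⟩⟩
        intro a b hab
        exact g2 a (Finset.mem_univ _) b (Finset.mem_univ _) hab
      · left; exact hRc)
  exact ⟨N, hN2, hN1⟩

end Pool.Agent.Helper311.Glue
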